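import Mathlib

/-! Radicable groups and verbal subgroups. -/

namespace Pool.H22.Rad

/-- A group is radicable if every element has an `n`-th root for every `n ≥ 1`. -/
def Radicable (H : Type*) [Group H] : Prop :=
  ∀ h : H, ∀ n : ℕ, 1 ≤ n → ∃ x : H, x ^ n = h

/-- The verbal subgroup `W(G)`: the subgroup generated by all values in `G` of the words in `W`. -/
def verbal (W : Set (FreeGroup ℕ)) (G : Type*) [Group G] : Subgroup G :=
  Subgroup.closure {g | ∃ w ∈ W, ∃ σ : FreeGroup ℕ →* G, σ w = g}

end Pool.H22.Rad
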