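import Pool.Agent.H22.Rad.Seq
import Pool.Agent.H22.Rad.Defs

/-! The relatively free group. -/

set_option linter.unusedSectionVars false

namespace Pool.H22.Rad

open Multiplicative

/-- the integers in `ℚ` -/
def ZZ : AddSubgroup ℚ := (Int.castAddHom ℚ).range

theorem int_mem (z : ℤ) : (z : ℚ) ∈ ZZ := ⟨z, rfl⟩

section

variable (N0 : Subgroup F2) (u : ℕ → F2) (Λ : ℕ → F2 → ℤ) (e : (F2 →* F2) → ℤ)

/-- the total count -/
noncomputable def Lq (v : F2) : ℚ := ∑ᶠ i, (Λ i v : ℚ) / 2 ^ i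

/-- the fully invariant closure of the `u m` -/
def Nn : Subgroup F2 := Subgroup.closure {w | ∃ m, ∃ ψ : F2 →* F2, ψ (u m) = w}

theorem Nn_FI : FI (Nn u) := by
  intro φ w hw
  induction hw using Subgroup.closure_induction with
  | mem w hw =>
    obtain ⟨m, ψ, rfl⟩ := hw
    exact Subgroup.subset_closure ⟨m, φ.comp ψ, rfl⟩
  | one => rw [map_one]; exact (Nn u).one_mem
  | mul a b _ _ ha hb => rw [map_mul]; exact (Nn u).mul_mem ha hb
  | inv a _ ha => rw [map_inv]; exact (Nn u).inv_mem ha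

variable (hFI : FI N0) (hu : ∀ m, u m ∈ N0)
  (hadd : ∀ i, ∀ v ∈ N0, ∀ w ∈ N0, Λ i (v * w) = Λ i v + Λ i w)
  (hz : ∀ i m, i ≠ m → ∀ ψ : F2 →* F2, Λ i (ψ (u m)) = 0)
  (he : ∀ m (ψ : F2 →* F2), (2 ^ m : ℤ) ∣ Λ m (ψ (u m)) - e ψ)

include hFI hu in
theorem Nn_le : Nn u ≤ N0 := by
  refine (Subgroup.closure_le _).2 ?_
  rintro _ ⟨m, ψ, rfl⟩
  exact hFI ψ _ (hu m)

include hadd in
theorem L_one (i : ℕ) : Λ i 1 = 0 := by
  have := hadd i 1 N0.one_mem 1 N0.one_mem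
  rw [mul_one] at this
  omega

include hadd in
theorem L_inv (i : ℕ) {v : F2} (hv : v ∈ N0) : Λ i v⁻¹ = - Λ i v := by
  have := hadd i v hv v⁻¹ (N0.inv_mem hv)
  rw [mul_inv_cancel, L_one N0 Λ hadd] at this
  omega

include hFI hu hadd hz in
theorem L_fin {v : F2} (hv : v ∈ Nn u) : {i | Λ i v ≠ 0}.Finite := by
  induction hv using Subgroup.closure_induction with
  | mem w hw =>
    obtain ⟨m, ψ, rfl⟩ := hw
    refine (Set.finite_singleton m).subset ?_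
    intro i hi
    by_contra h
    exact hi (hz i m h ψ)
  | one =>
    have : {i | Λ i 1 ≠ 0} = ∅ := by
      ext i
      simp [L_one N0 Λ hadd]
    rw [this]; exact Set.finite_empty
  | mul a b ha hb iha ihb =>
    refine (iha.union ihb).subset ?_
    intro i hi
    by_contra h
    simp only [Set.mem_union, Set.mem_ofPred_eq, not_or, not_not] at h
    apply hi
    rw [hadd i a (Nn_le N0 u hFI hu ha) b (Nn_le N0 u hFI hu hb), h.1, h.2, add_zero]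
  | inv a ha iha =>
    refine iha.subset ?_
    intro i hi h
    apply hi
    rw [L_inv N0 Λ hadd i (Nn_le N0 u hFI hu ha), h, neg_zero]

include hadd in
theorem Lq_one : Lq Λ 1 = 0 := by
  unfold Lq
  simp [L_one N0 Λ hadd]

include hFI hu hadd hz in
theorem Lq_mul {v w : F2} (hv : v ∈ Nn u) (hw : w ∈ Nn u) :
    Lq Λ (v * w) = Lq Λ v + Lq Λ w := by
  unfold Lq
  rw [← finsum_add_distrib]
  · refine finsum_congr fun i => ?_
    rw [hadd i v (Nn_le N0 u hFI hu hv) w (Nn_le N0 u hFI hu hw)]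
    push_cast
    ring
  · refine (L_fin N0 u Λ hFI hu hadd hz hv).subset ?_
    intro i hi h
    apply hi
    show (Λ i v : ℚ) / 2 ^ i = 0
    rw [h]; simp
  · refine (L_fin N0 u Λ hFI hu hadd hz hw).subset ?_
    intro i hi h
    apply hi
    show (Λ i w : ℚ) / 2 ^ i = 0
    rw [h]; simp

include hFI hu hadd hz in
theorem Lq_inv {v : F2} (hv : v ∈ Nn u) : Lq Λ v⁻¹ = - Lq Λ v := by
  have := Lq_mul N0 u Λ hFI hu hadd hz hv ((Nn u).inv_mem hv)
  rw [mul_inv_cancel, Lq_one N0 Λ hadd] at this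
  linarith

include hFI hu hadd hz in
theorem Lq_pow {v : F2} (hv : v ∈ Nn u) (n : ℕ) : Lq Λ (v ^ n) = n * Lq Λ v := by
  induction n with
  | zero => simp [Lq_one N0 Λ hadd]
  | succ n ih =>
    rw [pow_succ, Lq_mul N0 u Λ hFI hu hadd hz ((Nn u).pow_mem hv n) hv, ih]
    push_cast
    ring

include hz in
theorem Lq_u (m : ℕ) (ψ : F2 →* F2) : Lq Λ (ψ (u m)) = (Λ m (ψ (u m)) : ℚ) / 2 ^ m := by
  unfold Lq
  rw [finsum_eq_single _ m]
  intro i hi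
  rw [hz i m hi ψ]
  simp

include hz he in
theorem Lq_e (m : ℕ) (ψ : F2 →* F2) : ∃ z : ℤ, Lq Λ (ψ (u m)) = (e ψ : ℚ) / 2 ^ m + z := by
  obtain ⟨z, hz'⟩ := he m ψ
  refine ⟨z, ?_⟩
  rw [Lq_u u Λ hz]
  have : (Λ m (ψ (u m)) : ℚ) = e ψ + 2 ^ m * z := by
    have h2 : Λ m (ψ (u m)) = e ψ + 2 ^ m * z := by omega
    rw [h2]; push_cast; ring
  rw [this]
  field_simp

/-- the fully invariant subgroup we factor out -/
noncomputable def Ss : Subgroup F2 where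
  carrier := {v | v ∈ Nn u ∧ ∀ ψ : F2 →* F2, Lq Λ (ψ v) ∈ ZZ}
  one_mem' := ⟨(Nn u).one_mem, fun ψ => by rw [map_one, Lq_one N0 Λ hadd]; exact ZZ.zero_mem⟩
  mul_mem' := by
    rintro a b ⟨ha, ha'⟩ ⟨hb, hb'⟩
    refine ⟨(Nn u).mul_mem ha hb, fun ψ => ?_⟩
    rw [map_mul, Lq_mul N0 u Λ hFI hu hadd hz (Nn_FI u ψ a ha) (Nn_FI u ψ b hb)]
    exact ZZ.add_mem (ha' ψ) (hb' ψ)
  inv_mem' := by
    rintro a ⟨ha, ha'⟩
    refine ⟨(Nn u).inv_mem ha, fun ψ => ?_⟩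
    rw [map_inv, Lq_inv N0 u Λ hFI hu hadd hz (Nn_FI u ψ a ha)]
    exact ZZ.neg_mem (ha' ψ)

theorem Ss_FI : FI (Ss N0 u Λ hFI hu hadd hz) := by
  rintro φ w ⟨hw, hw'⟩
  exact ⟨Nn_FI u φ w hw, fun ψ => hw' (ψ.comp φ)⟩

end

theorem quotient_relfree {S : Subgroup F2} [S.Normal] (hS : FI S) :
    Subgroup.closure (Set.range fun b : Bool => (FreeGroup.of b : F2 ⧸ S)) = ⊤ ∧
    ∀ f : (Set.range fun b : Bool => (FreeGroup.of b : F2 ⧸ S)) → F2 ⧸ S,
      ∃ φ : F2 ⧸ S →* F2 ⧸ S, ∀ x, φ x.1 = f x := by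
  constructor
  · have h1 : Set.range (fun b : Bool => (FreeGroup.of b : F2 ⧸ S)) =
        (QuotientGroup.mk' S) '' Set.range (FreeGroup.of : Bool → F2) := by
      rw [← Set.range_comp]; rfl
    rw [h1, ← MonoidHom.map_closure, FreeGroup.closure_range_of, ← MonoidHom.range_eq_map]
    exact MonoidHom.range_eq_top.2 (QuotientGroup.mk'_surjective S)
  · intro f
    let φ : F2 →* F2 := FreeGroup.lift fun b => (f ⟨_, ⟨b, rfl⟩⟩).out
    refine ⟨QuotientGroup.map S S φ fun v hv => hS φ v hv, ?_⟩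
    rintro ⟨_, ⟨b, rfl⟩⟩
    have h1 : φ (FreeGroup.of b) = (f ⟨_, ⟨b, rfl⟩⟩).out := FreeGroup.lift_apply_of
    show ((φ (FreeGroup.of b) : F2) : F2 ⧸ S) = f ⟨_, ⟨b, rfl⟩⟩
    rw [h1]
    exact QuotientGroup.out_eq' _

/-- the words -/
def wd (u : ℕ → F2) (m : ℕ) : FreeGroup ℕ := FreeGroup.map (fun b : Bool => if b then 0 else 1) (u m)

theorem verbal_eq (u : ℕ → F2) (S : Subgroup F2) [S.Normal] :
    verbal (Set.range (wd u)) (F2 ⧸ S) =
      Subgroup.closure {g | ∃ m, ∃ ψ : F2 →* F2, ((ψ (u m) : F2) : F2 ⧸ S) = g} := by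
  unfold verbal
  congr 1
  ext g
  constructor
  · rintro ⟨_, ⟨m, rfl⟩, σ, rfl⟩
    let ψ : F2 →* F2 := FreeGroup.lift fun b => (σ (FreeGroup.of (if b then 0 else 1))).out
    refine ⟨m, ψ, ?_⟩
    have : (QuotientGroup.mk' S).comp ψ = σ.comp (FreeGroup.map fun b : Bool => if b then 0 else 1) := by
      refine FreeGroup.ext_hom _ _ fun b => ?_
      simp [ψ]
    exact DFunLike.congr_fun this (u m)
  · rintro ⟨m, ψ, rfl⟩
    let σ : FreeGroup ℕ →* F2 ⧸ S :=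
      FreeGroup.lift fun n => ((ψ (FreeGroup.of (decide (n = 0))) : F2) : F2 ⧸ S)
    refine ⟨_, ⟨m, rfl⟩, σ, ?_⟩
    have : (QuotientGroup.mk' S).comp ψ = σ.comp (FreeGroup.map fun b : Bool => if b then 0 else 1) := by
      refine FreeGroup.ext_hom _ _ fun b => ?_
      cases b <;> simp [σ]
    exact (DFunLike.congr_fun this (u m)).symm

theorem main : ∃ (F : Type) (_ : Group F) (X : Set F) (W : Set (FreeGroup ℕ)),
    X.ncard = 2 ∧ Subgroup.closure X = ⊤ ∧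
    (∀ f : X → F, ∃ φ : F →* F, ∀ x : X, φ x = f x) ∧
    verbal W F ≠ ⊥ ∧ Radicable (verbal W F) ∧
    (∀ a ∈ verbal W F, ∀ b ∈ verbal W F, a * b = b * a) := by
  classical
  obtain ⟨N0, u, Λ, e, hFI, hΦ, hu, hadd, hz, he, he1⟩ := exists_data
  set S := Ss N0 u Λ hFI hu hadd hz with hS
  have hSFI : FI S := Ss_FI N0 u Λ hFI hu hadd hz
  have hSn : S.Normal := hSFI.normal
  obtain ⟨hr1, hr2⟩ := quotient_relfree hSFI
  have hmul := @Lq_mul N0 u Λ hFI hu hadd hz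
  have hinv := @Lq_inv N0 u Λ hFI hu hadd hz
  have hpow := @Lq_pow N0 u Λ hFI hu hadd hz
  have hgen : ∀ m (ψ : F2 →* F2), ψ (u m) ∈ Nn u := fun m ψ => Subgroup.subset_closure ⟨m, ψ, rfl⟩
  -- relations
  have hrel1 : ∀ m (ψ : F2 →* F2), ((ψ (u (m + 1)) : F2) : F2 ⧸ S) ^ 2 = (ψ (u m) : F2) := by
    intro m ψ
    have h1 : (ψ (u (m + 1))) ^ 2 * (ψ (u m))⁻¹ ∈ S := by
      refine ⟨(Nn u).mul_mem ((Nn u).pow_mem (hgen _ _) _) ((Nn u).inv_mem (hgen _ _)), fun ψ' => ?_⟩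
      have g1 : ψ' (ψ (u (m + 1))) ∈ Nn u := hgen (m + 1) (ψ'.comp ψ)
      have g2 : ψ' (ψ (u m)) ∈ Nn u := hgen m (ψ'.comp ψ)
      rw [map_mul, map_inv, map_pow, hmul ((Nn u).pow_mem g1 _) ((Nn u).inv_mem g2), hpow g1,
        hinv g2]
      obtain ⟨z1, hz1⟩ := Lq_e u Λ e hz he (m + 1) (ψ'.comp ψ)
      obtain ⟨z2, hz2⟩ := Lq_e u Λ e hz he m (ψ'.comp ψ)
      rw [MonoidHom.comp_apply] at hz1 hz2
      rw [hz1, hz2]
      refine ⟨2 * z1 - z2, ?_⟩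
      simp only [Int.coe_castAddHom]
      push_cast
      rw [pow_succ]
      field_simp
      ring
    have h2 : (((ψ (u (m + 1))) ^ 2 * (ψ (u m))⁻¹ : F2) : F2 ⧸ S) = 1 :=
      (QuotientGroup.eq_one_iff _).2 h1
    rw [QuotientGroup.mk_mul, QuotientGroup.mk_inv, QuotientGroup.mk_pow, mul_inv_eq_one] at h2
    exact h2
  have hrel2 : ∀ m (ψ : F2 →* F2), ((ψ (u m) : F2) : F2 ⧸ S) ^ 2 ^ m = 1 := by
    intro m ψ
    rw [← QuotientGroup.mk_pow, QuotientGroup.eq_one_iff]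
    refine ⟨(Nn u).pow_mem (hgen _ _) _, fun ψ' => ?_⟩
    have g1 : ψ' (ψ (u m)) ∈ Nn u := hgen m (ψ'.comp ψ)
    rw [map_pow, hpow g1]
    have g2 : Lq Λ (ψ' (ψ (u m))) = _ := Lq_u u Λ hz m (ψ'.comp ψ)
    rw [g2]
    refine ⟨Λ m ((ψ'.comp ψ) (u m)), ?_⟩
    simp only [Int.coe_castAddHom]
    push_cast
    field_simp
  have hcomm0 : ∀ v ∈ Nn u, ∀ w ∈ Nn u, (v : F2 ⧸ S) * w = w * v := by
    intro v hv w hw
    have h1 : v * w * v⁻¹ * w⁻¹ ∈ S := by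
      refine ⟨(Nn u).mul_mem ((Nn u).mul_mem ((Nn u).mul_mem hv hw) ((Nn u).inv_mem hv))
        ((Nn u).inv_mem hw), fun ψ => ?_⟩
      have hv' := Nn_FI u ψ v hv
      have hw' := Nn_FI u ψ w hw
      rw [map_mul, map_mul, map_mul, map_inv, map_inv,
        hmul ((Nn u).mul_mem ((Nn u).mul_mem hv' hw') ((Nn u).inv_mem hv')) ((Nn u).inv_mem hw'),
        hmul ((Nn u).mul_mem hv' hw') ((Nn u).inv_mem hv'), hmul hv' hw', hinv hv', hinv hw']
      have : Lq Λ (ψ v) + Lq Λ (ψ w) + -Lq Λ (ψ v) + -Lq Λ (ψ w) = 0 := by ring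
      rw [this]
      exact ZZ.zero_mem
    have h2 : ((v * w * v⁻¹ * w⁻¹ : F2) : F2 ⧸ S) = 1 := (QuotientGroup.eq_one_iff _).2 h1
    rw [QuotientGroup.mk_mul, QuotientGroup.mk_mul, QuotientGroup.mk_mul, QuotientGroup.mk_inv,
      QuotientGroup.mk_inv, mul_inv_eq_one, mul_inv_eq_iff_eq_mul] at h2
    exact h2
  set A := verbal (Set.range (wd u)) (F2 ⧸ S) with hA
  have hAcl : A = Subgroup.closure {g | ∃ m, ∃ ψ : F2 →* F2, ((ψ (u m) : F2) : F2 ⧸ S) = g} :=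
    verbal_eq u S
  have hAN : ∀ a ∈ A, ∃ v ∈ Nn u, (v : F2 ⧸ S) = a := by
    intro a ha
    rw [hAcl] at ha
    have : Subgroup.closure {g | ∃ m, ∃ ψ : F2 →* F2, ((ψ (u m) : F2) : F2 ⧸ S) = g} ≤
        (Nn u).map (QuotientGroup.mk' S) := by
      refine (Subgroup.closure_le _).2 ?_
      rintro _ ⟨m, ψ, rfl⟩
      exact ⟨_, hgen m ψ, rfl⟩
    obtain ⟨v, hv, h⟩ := this ha
    exact ⟨v, hv, h⟩
  have hcomm : ∀ a ∈ A, ∀ b ∈ A, a * b = b * a := by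
    intro a ha b hb
    obtain ⟨v, hv, rfl⟩ := hAN a ha
    obtain ⟨w, hw, rfl⟩ := hAN b hb
    exact hcomm0 v hv w hw
  have hgenA : ∀ m (ψ : F2 →* F2), ((ψ (u m) : F2) : F2 ⧸ S) ∈ A := by
    intro m ψ
    rw [hAcl]
    exact Subgroup.subset_closure ⟨m, ψ, rfl⟩
  have hroot : ∀ a ∈ A, ∀ n : ℕ, 1 ≤ n → ∃ x ∈ A, x ^ n = a := by
    intro a ha
    rw [hAcl] at ha
    induction ha using Subgroup.closure_induction with
    | mem a h =>
      obtain ⟨m, ψ, rfl⟩ := h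
      intro n hn
      obtain ⟨k, b, hb, hnk⟩ := Nat.exists_eq_two_pow_mul_odd (n := n) (by omega)
      have h1 : ∀ k, ((ψ (u (m + k)) : F2) : F2 ⧸ S) ^ 2 ^ k = (ψ (u m) : F2) := by
        intro k
        induction k with
        | zero => simp
        | succ k ih => rw [pow_succ', pow_mul, ← add_assoc, hrel1, ih]
      have h2 : b.Coprime (orderOf ((ψ (u (m + k)) : F2) : F2 ⧸ S)) := by
        have h3 := orderOf_dvd_of_pow_eq_one (hrel2 (m + k) ψ)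
        refine Nat.Coprime.coprime_dvd_right h3 ?_
        exact Nat.Coprime.pow_right _ (Nat.coprime_two_right.2 hb)
      obtain ⟨c, hc⟩ := exists_pow_eq_self_of_coprime h2
      refine ⟨((ψ (u (m + k)) : F2) : F2 ⧸ S) ^ c, A.pow_mem (hgenA _ _) _, ?_⟩
      rw [← h1 k]
      conv_rhs => rw [← hc]
      rw [hnk, ← pow_mul, ← pow_mul, ← pow_mul]
      congr 1
      ring
    | one => exact fun n _ => ⟨1, A.one_mem, one_pow _⟩
    | mul a b ha hb iha ihb =>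
      intro n hn
      obtain ⟨x, hx, h1⟩ := iha n hn
      obtain ⟨y, hy, h2⟩ := ihb n hn
      refine ⟨x * y, A.mul_mem hx hy, ?_⟩
      have : Commute x y := hcomm x hx y hy
      rw [this.mul_pow, h1, h2]
    | inv a ha iha =>
      intro n hn
      obtain ⟨x, hx, h1⟩ := iha n hn
      exact ⟨x⁻¹, A.inv_mem hx, by rw [inv_pow, h1]⟩
  refine ⟨F2 ⧸ S, inferInstance, _, Set.range (wd u), ?_, hr1, hr2, ?_, ?_, hcomm⟩
  · have : (Set.range fun b : Bool => (FreeGroup.of b : F2 ⧸ S)) =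
        {(FreeGroup.of false : F2 ⧸ S), (FreeGroup.of true : F2 ⧸ S)} := by
      ext g
      simp
    rw [this, Set.ncard_pair]
    intro h
    rw [QuotientGroup.eq] at h
    have h2 := hΦ (Nn_le N0 u hFI hu h.1)
    rw [MonoidHom.mem_ker, map_mul, map_inv] at h2
    have h3 : ab 2 (FreeGroup.of false) = ofAdd (0, 1) := ab_y 2
    have h4 : ab 2 (FreeGroup.of true) = ofAdd (1, 0) := ab_x 2
    rw [h3, h4] at h2
    revert h2
    decide
  · intro hbot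
    have h1 : ((u 5 : F2) : F2 ⧸ S) ∈ A := hgenA 5 (MonoidHom.id F2)
    rw [hA, hbot, Subgroup.mem_bot, QuotientGroup.eq_one_iff] at h1
    obtain ⟨z, hz1⟩ := h1.2 (MonoidHom.id F2)
    obtain ⟨z2, hz2⟩ := Lq_e u Λ e hz he 5 (MonoidHom.id F2)
    rw [MonoidHom.id_apply] at hz1 hz2
    rw [hz2, he1] at hz1
    simp only [Int.coe_castAddHom] at hz1
    have h3 : (2 * z : ℤ) = 1 + 2 * z2 := by
      have : (2 * z : ℚ) = 1 + 2 * z2 := by
        rw [hz1]; push_cast; ring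
      exact_mod_cast this
    omega
  · rintro ⟨a, ha⟩ n hn
    obtain ⟨x, hx, h⟩ := hroot a ha n hn
    exact ⟨⟨x, hx⟩, Subtype.ext h⟩

end Pool.H22.Rad
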