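import Pool.Agent.H22.Rad.Stage

/-! Counting signed traversals of the edges `x` in the Cayley graph of `F₂ / V`. -/

set_option linter.unusedSectionVars false

namespace Pool.H22.Rad

open Multiplicative

section fox

variable (V : Subgroup F2) [V.Normal]

open Classical in
/-- the homomorphism counting signed traversals of the `x`-edge at `1` -/
noncomputable def fx : F2 →* Wr (Multiplicative ℤ) (F2 ⧸ V) :=
  FreeGroup.lift fun b => if b then ⟨fun p => if p = 1 then ofAdd 1 else 1, (gx : F2 ⧸ V)⟩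
    else ⟨fun _ => 1, (gy : F2 ⧸ V)⟩

open Classical in
theorem fx_x : fx V gx = ⟨fun p => if p = 1 then ofAdd 1 else 1, (gx : F2 ⧸ V)⟩ := by
  simp [fx, gx]

theorem fx_y : fx V gy = ⟨fun _ => 1, (gy : F2 ⧸ V)⟩ := by
  simp [fx, gy]

theorem fx_q (w : F2) : (fx V w).q = (w : F2 ⧸ V) := by
  have e : Wr.proj.comp (fx V) = QuotientGroup.mk' V := by
    refine f2_ext ?_ ?_
    · rw [MonoidHom.comp_apply, fx_x]; rfl
    · rw [MonoidHom.comp_apply, fx_y]; rfl
  exact DFunLike.congr_fun e w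

/-- number of signed traversals of the `x`-edge at `1` by the path `w` that starts at `p` -/
noncomputable def Fv (w : F2) (p : F2 ⧸ V) : ℤ := toAdd ((fx V w).f p)

theorem Fv_mul (u v : F2) (p : F2 ⧸ V) : Fv V (u * v) p = Fv V u p + Fv V v (p * u) := by
  unfold Fv
  rw [map_mul, Wr.mul_f, toAdd_mul, fx_q]

@[simp] theorem Fv_one (p : F2 ⧸ V) : Fv V 1 p = 0 := by
  unfold Fv
  rw [map_one]; rfl

theorem Fv_inv (u : F2) (p : F2 ⧸ V) : Fv V u⁻¹ p = - Fv V u (p * (u : F2 ⧸ V)⁻¹) := by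
  unfold Fv
  rw [map_inv, Wr.inv_f, toAdd_inv, fx_q]

theorem Fv_x (p : F2 ⧸ V) [Decidable (p = 1)] : Fv V gx p = if p = 1 then 1 else 0 := by
  unfold Fv
  rw [fx_x]
  by_cases h : p = 1
  · simp [h]
  · simp [h]

theorem Fv_y (p : F2 ⧸ V) : Fv V gy p = 0 := by
  unfold Fv
  rw [fx_y]; rfl

theorem mk_eq_one {v : F2} (hv : v ∈ V) : (v : F2 ⧸ V) = 1 := (QuotientGroup.eq_one_iff v).2 hv

theorem Fv_mul_of {u : F2} (hu : u ∈ V) (v : F2) (p : F2 ⧸ V) :
    Fv V (u * v) p = Fv V u p + Fv V v p := by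
  rw [Fv_mul, mk_eq_one V hu, mul_one]

theorem Fv_inv_of {u : F2} (hu : u ∈ V) (p : F2 ⧸ V) : Fv V u⁻¹ p = - Fv V u p := by
  rw [Fv_inv, mk_eq_one V hu, inv_one, mul_one]

theorem Fv_conj {v : F2} (hv : v ∈ V) (g : F2) (p : F2 ⧸ V) :
    Fv V (g * v * g⁻¹) p = Fv V v (p * g) := by
  rw [Fv_mul, Fv_mul, Fv_inv, QuotientGroup.mk_mul, mk_eq_one V hv, mul_one, mul_inv_cancel_right]
  ring

theorem Fv_pow_of {u : F2} (hu : u ∈ V) (n : ℕ) (p : F2 ⧸ V) : Fv V (u ^ n) p = n * Fv V u p := by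
  induction n with
  | zero => simp
  | succ n ih =>
    rw [pow_succ, Fv_mul_of V (V.pow_mem hu n), ih]
    push_cast
    ring

theorem Fv_list {l : List F2} (hl : ∀ v ∈ l, v ∈ V) (p : F2 ⧸ V) :
    Fv V l.prod p = (l.map fun v => Fv V v p).sum := by
  induction l with
  | nil => simp
  | cons a l ih =>
    rw [List.prod_cons, Fv_mul_of V (hl a (by simp)), ih fun v hv => hl v (by simp [hv]),
      List.map_cons, List.sum_cons]

/-- the count at the base point -/
noncomputable def Lam (w : F2) : ℤ := Fv V w 1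

end fox

/-- push-forward to a bigger subgroup -/
theorem push (V Φ : Subgroup F2) [V.Normal] [Φ.Normal] (h : V ≤ Φ)
    [Fintype (Φ.map (QuotientGroup.mk' V))] (w : F2) (p : F2) :
    ∑ κ : Φ.map (QuotientGroup.mk' V), Fv V w (κ.1 * p) = Fv Φ w p := by
  classical
  induction w using FreeGroup.induction_on generalizing p with
  | C1 => simp
  | of b =>
    rcases b with _ | _
    · have h1 : ∀ (W : Subgroup F2) [W.Normal] (q : F2 ⧸ W), Fv W (FreeGroup.of false) q = 0 :=
        fun W _ q => Fv_y W q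
      rw [h1, Finset.sum_eq_zero fun κ _ => h1 V _]
    · have h1 : ∀ (W : Subgroup F2) [W.Normal] (q : F2 ⧸ W),
        Fv W (FreeGroup.of true) q = if q = 1 then 1 else 0 := fun W _ q => Fv_x W q
      rw [h1, Finset.sum_congr rfl fun κ _ => h1 V _]
      by_cases hp : p ∈ Φ
      · rw [if_pos (mk_eq_one Φ hp)]
        rw [Finset.sum_eq_single ⟨(p : F2 ⧸ V)⁻¹, ⟨p⁻¹, Φ.inv_mem hp, rfl⟩⟩]
        · simp
        · intro κ _ hκ
          rw [if_neg]
          intro h2
          apply hκ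
          apply Subtype.ext
          exact eq_inv_of_mul_eq_one_left h2
        · intro h2; exact absurd (Finset.mem_univ _) h2
      · rw [if_neg (by rwa [QuotientGroup.eq_one_iff])]
        apply Finset.sum_eq_zero
        intro κ _
        rw [if_neg]
        intro h2
        apply hp
        obtain ⟨_, ⟨v, hv, rfl⟩⟩ := κ
        have h3 : ((v * p : F2) : F2 ⧸ V) = 1 := h2
        rw [QuotientGroup.eq_one_iff] at h3
        have h4 := Φ.mul_mem (Φ.inv_mem hv) (h h3)
        simpa using h4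
  | inv_of b ih =>
    rw [Fv_inv, Finset.sum_congr rfl fun κ _ => Fv_inv V _ _, Finset.sum_neg_distrib]
    have := ih (p * (FreeGroup.of b)⁻¹)
    rw [QuotientGroup.mk_mul, QuotientGroup.mk_inv, QuotientGroup.mk_mul, QuotientGroup.mk_inv] at this
    rw [← this]
    congr 1
    refine Finset.sum_congr rfl fun κ _ => ?_
    rw [mul_assoc]
  | mul u v hu hv =>
    rw [Fv_mul, Finset.sum_congr rfl fun κ _ => Fv_mul V _ _ _, Finset.sum_add_distrib, hu]
    have := hv (p * u)
    rw [QuotientGroup.mk_mul, QuotientGroup.mk_mul] at this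
    rw [← this]
    congr 1
    refine Finset.sum_congr rfl fun κ _ => ?_
    rw [mul_assoc]

/-- sums of functions that are constant on left cosets -/
theorem sum_dvd {H : Type*} [Group H] [Fintype H] (U : Subgroup H) (G : H → ℤ)
    (hG : ∀ κ, ∀ ν ∈ U, G (κ * ν) = G κ) : (Nat.card U : ℤ) ∣ ∑ κ, G κ := by
  classical
  let G' : H ⧸ U → ℤ := fun c => G c.out
  have h1 : ∀ κ : H, G κ = G' κ := by
    intro κ
    obtain ⟨ν, hν⟩ := QuotientGroup.mk_out_eq_mul U κ
    show G κ = G ((κ : H ⧸ U).out)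
    rw [hν, hG κ ν ν.2]
  have : Fintype (H ⧸ U) := Fintype.ofFinite _
  rw [Finset.sum_congr rfl fun κ _ => h1 κ, ← Finset.sum_fiberwise' Finset.univ
    (fun κ : H => (κ : H ⧸ U)) G']
  apply Finset.dvd_sum
  intro c _
  rw [Finset.sum_const, nsmul_eq_mul]
  have h2 : (Finset.univ.filter fun κ : H => (κ : H ⧸ U) = c).card = Nat.card U := by
    have h3 := QuotientGroup.card_preimage_mk U {c}
    rw [Nat.card_coe_set_eq, Nat.card_coe_set_eq, Set.ncard_singleton, mul_one] at h3
    rw [← h3, ← Set.ncard_coe_finset]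
    congr 1
    ext κ
    simp
  rw [h2]
  exact dvd_mul_right _ _

/-- subgroups of index two contain the kernel of `ab 2` -/
theorem index_two_ge (H : Subgroup F2) (h : H.index = 2) : (ab 2).ker ≤ H := by
  classical
  let χ : F2 →* Tp 2 := FreeGroup.lift fun b => if FreeGroup.of b ∈ H then 1 else ofAdd (1, 0)
  have hχ : ∀ w : F2, (χ w = 1 ∨ χ w = ofAdd (1, 0)) ∧ (χ w = 1 ↔ w ∈ H) := by
    have hne : (ofAdd ((1 : ZMod 2), (0 : ZMod 2)) : Tp 2) ≠ 1 := by decide
    intro w
    induction w using FreeGroup.induction_on with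
    | C1 => simp [H.one_mem]
    | of b =>
      by_cases hb : FreeGroup.of b ∈ H
      · simp [χ, hb]
      · simp only [χ, FreeGroup.lift_apply_of, hb, if_false]
        exact ⟨Or.inr trivial, ⟨fun h => absurd h hne, fun h => absurd h (by simp)⟩⟩
    | inv_of b ih =>
      rw [map_inv, inv_eq_one, H.inv_mem_iff]
      refine ⟨?_, ih.2⟩
      rcases ih.1 with h1 | h1
      · left; rw [h1]
      · right; rw [h1]; decide
    | mul u v hu hv =>
      rw [map_mul, Subgroup.mul_mem_iff_of_index_two h, ← hu.2, ← hv.2]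
      rcases hu.1 with h1 | h1 <;> rcases hv.1 with h2 | h2 <;> rw [h1, h2] <;> decide
  intro w hw
  exact (hχ w).2.1 (ab_ker_le χ hw)

end Pool.H22.Rad
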