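import Pool.Agent.H22.Rad.Fox

/-! The elements `u_m`. -/

set_option linter.unusedSectionVars false

namespace Pool.H22.Rad

open Multiplicative

theorem lam_c : Lam (ab 2).ker gc = 1 := by
  classical
  have : Fact (1 < 2) := ⟨one_lt_two⟩
  unfold Lam gc
  rw [Fv_mul, Fv_mul, Fv_mul, Fv_inv, Fv_inv, Fv_x, Fv_y, Fv_y, Fv_x, if_pos rfl, if_neg]
  · simp
  · simp only [one_mul]
    rw [← QuotientGroup.mk_inv, ← QuotientGroup.mk_mul, QuotientGroup.eq_one_iff,
      MonoidHom.mem_ker]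
    simp only [map_mul, map_inv, ab_x, ab_y]
    decide

theorem lam_r : Lam (ab 2).ker (gc ^ 16) = 16 := by
  have h : gc ∈ (ab 2).ker := comm_q (ab 2)
  have := Fv_pow_of (ab 2).ker h 16 1
  have h2 : Fv (ab 2).ker gc 1 = 1 := lam_c
  unfold Lam
  rw [this, h2]
  norm_num

theorem ker_FI (N : ℕ) : FI (ab N).ker := by
  intro φ w hw
  exact ab_ker_le ((ab N).comp φ) hw

/-- surjectivity mod `V` from surjectivity mod `Φ` -/
theorem surj_of {V : Subgroup F2} [V.Normal] [V.FiniteIndex] (hFI : FI V)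
    (h2 : ∀ w : F2, ∃ k : ℕ, w ^ 2 ^ k ∈ V) (ψ : F2 →* F2)
    (hψ : Function.Surjective ((ab 2).comp ψ)) :
    Function.Surjective (QuotientGroup.map V V ψ fun v hv => hFI ψ v hv) := by
  classical
  set f := QuotientGroup.map V V ψ fun v hv => hFI ψ v hv with hf
  have : Finite (F2 ⧸ V) := Subgroup.finite_quotient_of_finiteIndex
  have : Fact (Nat.Prime 2) := ⟨Nat.prime_two⟩
  have hp : IsPGroup 2 (F2 ⧸ V) := by
    intro g
    obtain ⟨w, rfl⟩ := QuotientGroup.mk'_surjective V g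
    obtain ⟨k, hk⟩ := h2 w
    refine ⟨k, ?_⟩
    rw [← map_pow]
    exact (QuotientGroup.eq_one_iff _).2 hk
  obtain ⟨s, hs⟩ := IsPGroup.iff_card.1 hp
  obtain ⟨a, ha⟩ := IsPGroup.iff_card.1 (hp.to_subgroup f.range)
  by_contra hcon
  have h3 : f.range ≠ ⊤ := fun h => hcon (MonoidHom.range_eq_top.1 h)
  have h4 : a < s := by
    have h5 : Nat.card f.range < Nat.card (F2 ⧸ V) := by
      refine lt_of_le_of_ne (Subgroup.card_le_card_group _) ?_
      intro h6
      exact h3 (Subgroup.eq_top_of_card_eq _ h6)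
    rw [hs, ha] at h5
    exact (Nat.pow_lt_pow_iff_right (by norm_num)).1 h5
  obtain ⟨K, hK1, hK2⟩ := Sylow.exists_subgroup_card_pow_prime_le (G := F2 ⧸ V) 2 (n := a)
    (m := s - 1) (by rw [hs]; exact pow_dvd_pow _ (by omega)) f.range ha (by omega)
  have hK3 : K.index = 2 := by
    have h6 := K.card_mul_index
    rw [hK1, hs] at h6
    have h7 : 2 ^ s = 2 ^ (s - 1) * 2 := by
      rw [← pow_succ, Nat.sub_add_cancel (by omega)]
    rw [h7] at h6
    exact Nat.eq_of_mul_eq_mul_left (by positivity) h6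
  set H := K.comap (QuotientGroup.mk' V) with hH
  have hH2 : H.index = 2 := by
    rw [hH, Subgroup.index_comap_of_surjective _ (QuotientGroup.mk'_surjective V), hK3]
  have hge := index_two_ge H hH2
  have htop : H = ⊤ := by
    rw [eq_top_iff]
    intro g _
    obtain ⟨w, hw⟩ := hψ (ab 2 g)
    have h8 : ψ w ∈ H := by
      show ((ψ w : F2) : F2 ⧸ V) ∈ K
      apply hK2
      exact ⟨(w : F2 ⧸ V), rfl⟩
    have h9 : (ψ w)⁻¹ * g ∈ (ab 2).ker := by
      rw [MonoidHom.mem_ker, map_mul, map_inv, ← hw]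
      simp
    have := H.mul_mem h8 (hge h9)
    simpa using this
  rw [htop] at hH2
  simp at hH2

theorem card_map_mk (V L : Subgroup F2) [V.Normal] :
    Nat.card (L.map (QuotientGroup.mk' V)) = V.relIndex L := by
  rw [← Subgroup.relIndex_ker, QuotientGroup.ker_mk']

/-- transversals -/
theorem exists_TU (V L : Subgroup F2) [V.Normal] : ∃ T Υ : F2 ⧸ V → F2, (∀ κ, Υ κ ∈ L) ∧
    (∀ κ, ((T κ * Υ κ : F2) : F2 ⧸ V) = κ) ∧
    (∀ κ, ∀ ν ∈ L.map (QuotientGroup.mk' V), T (κ * ν) = T κ) := by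
  classical
  set U := L.map (QuotientGroup.mk' V) with hU
  have hex : ∀ κ : F2 ⧸ V, ∃ υ ∈ L, (υ : F2 ⧸ V) = ((κ : (F2 ⧸ V) ⧸ U).out)⁻¹ * κ := by
    intro κ
    have h1 : ((κ : (F2 ⧸ V) ⧸ U).out)⁻¹ * κ ∈ U := by
      rw [← QuotientGroup.eq]
      exact QuotientGroup.out_eq' _
    obtain ⟨υ, hυ, h2⟩ := h1
    exact ⟨υ, hυ, h2⟩
  choose Υ h1 h2 using hex
  refine ⟨fun κ => ((κ : (F2 ⧸ V) ⧸ U).out).out, Υ, h1, ?_, ?_⟩
  · intro κ
    rw [QuotientGroup.mk_mul, h2, QuotientGroup.out_eq']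
    simp
  · intro κ ν hν
    have : ((κ * ν : F2 ⧸ V) : (F2 ⧸ V) ⧸ U) = (κ : (F2 ⧸ V) ⧸ U) :=
      QuotientGroup.mk_mul_of_mem κ hν
    show ((((κ * ν : F2 ⧸ V) : (F2 ⧸ V) ⧸ U)).out).out = _
    rw [this]

open Classical in
theorem exists_u (m : ℕ) (V L : Subgroup F2) [V.Normal] [V.FiniteIndex] (hFI : FI V)
    (hVΦ : V ≤ (ab 2).ker) (h2 : ∀ w : F2, ∃ k : ℕ, w ^ 2 ^ k ∈ V) (hr : gc ^ 16 ∈ V)
    (hL : L ≤ (ab 2).ker) (hind : 2 ^ m ∣ V.relIndex L)
    (h3 : ∀ φ : F2 →* F2, ¬ Function.Surjective ((ab 2).comp φ) →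
        2 ^ m ∣ V.relIndex (V.comap φ ⊓ (ab 2).ker)) :
    ∃ u : F2, (∀ V' : Subgroup F2, FI V' → gc ^ 16 ∈ V' → u ∈ V') ∧
      (∀ (V' : Subgroup F2) [V'.Normal], FI V' → gc ^ 16 ∈ V' → L ≤ V' →
        ∀ ψ : F2 →* F2, Lam V' (ψ u) = 0) ∧
      (∀ ψ : F2 →* F2, (2 ^ m : ℤ) ∣ Lam V (ψ u) -
        if Function.Surjective ((ab 2).comp ψ) then Lam (ab 2).ker (ψ (gc ^ 16)) else 0) := by
  have : Finite (F2 ⧸ V) := Subgroup.finite_quotient_of_finiteIndex
  set K := (ab 2).ker.map (QuotientGroup.mk' V) with hK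
  have : Fintype K := Fintype.ofFinite _
  obtain ⟨T, Υ, hΥ, hTΥ, hT⟩ := exists_TU V L
  set r := gc ^ 16 with hrdef
  let term : K → F2 := fun κ => (T κ * Υ κ * r * (T κ * Υ κ)⁻¹) * (T κ * r * (T κ)⁻¹)⁻¹
  let u : F2 := ((Finset.univ : Finset K).toList.map term).prod
  -- the value of a count
  have hterm : ∀ V' : Subgroup F2, FI V' → r ∈ V' → ∀ κ, term κ ∈ V' := by
    intro V' h hr' κ
    exact V'.mul_mem (h.normal.conj_mem _ hr' _) (V'.inv_mem (h.normal.conj_mem _ hr' _))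
  have hval : ∀ (V' : Subgroup F2) [V'.Normal], FI V' → r ∈ V' → ∀ ψ : F2 →* F2,
      Lam V' (ψ u) = ∑ κ : K, (Fv V' (ψ r) (ψ (T κ * Υ κ) : F2) - Fv V' (ψ r) (ψ (T κ) : F2)) := by
    intro V' _ h hr' ψ
    show Fv V' (ψ ((Finset.univ : Finset K).toList.map term).prod) 1 = _
    rw [map_list_prod, List.map_map, Fv_list, List.map_map]
    · rw [← Finset.sum_map_toList]
      congr 1
      apply List.map_congr_left
      intro κ _
      show Fv V' (ψ ((T κ * Υ κ * r * (T κ * Υ κ)⁻¹) * (T κ * r * (T κ)⁻¹)⁻¹)) 1 = _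
      have hψr : ψ r ∈ V' := h ψ r hr'
      have hN : V'.Normal := inferInstance
      rw [map_mul, map_mul, map_mul ψ _ r, map_inv, map_inv, map_mul ψ _ (T κ)⁻¹, map_mul ψ _ r,
        map_inv, Fv_mul_of V' (hN.conj_mem _ hψr _), Fv_inv_of V' (hN.conj_mem _ hψr _),
        Fv_conj V' hψr, Fv_conj V' hψr, one_mul, one_mul]
      ring
    · intro v hv
      obtain ⟨κ, _, rfl⟩ := List.mem_map.1 hv
      exact h ψ _ (hterm V' h hr' κ)
  refine ⟨u, ?_, ?_, ?_⟩
  · intro V' h hr'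
    apply V'.list_prod_mem
    intro v hv
    obtain ⟨κ, _, rfl⟩ := List.mem_map.1 hv
    exact hterm V' h hr' κ
  · intro V' _ h hr' hL' ψ
    rw [hval V' h hr']
    apply Finset.sum_eq_zero
    intro κ _
    have : ((ψ (T κ * Υ κ) : F2) : F2 ⧸ V') = (ψ (T κ) : F2) := by
      rw [map_mul, QuotientGroup.mk_mul, mk_eq_one V' (h ψ _ (hL' (hΥ κ))), mul_one]
    rw [this, sub_self]
  · intro ψ
    rw [hval V hFI hr, Finset.sum_sub_distrib]
    set f := QuotientGroup.map V V ψ fun v hv => hFI ψ v hv with hf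
    have hf1 : ∀ w : F2, ((ψ w : F2) : F2 ⧸ V) = f w := fun w => rfl
    -- second sum
    have hLK : L.map (QuotientGroup.mk' V) ≤ K := Subgroup.map_mono hL
    have hS2 : (2 ^ m : ℤ) ∣ ∑ κ : K, Fv V (ψ r) (ψ (T κ) : F2) := by
      have h5 := sum_dvd ((L.map (QuotientGroup.mk' V)).subgroupOf K)
        (fun κ : K => Fv V (ψ r) (ψ (T κ) : F2)) (by
          intro κ ν hν
          show Fv V (ψ r) (ψ (T (κ.1 * ν.1)) : F2) = _
          rw [hT κ.1 ν.1 hν])
      rw [Nat.card_congr (Subgroup.subgroupOfEquivOfLe hLK).toEquiv, card_map_mk] at h5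
      exact dvd_trans (by exact_mod_cast hind) h5
    have hS1 : ∑ κ : K, Fv V (ψ r) (ψ (T κ * Υ κ) : F2) = ∑ κ : K, Fv V (ψ r) (f κ.1) := by
      refine Finset.sum_congr rfl fun κ _ => ?_
      rw [hf1, hTΥ]
    rw [hS1, sub_right_comm]
    refine dvd_sub ?_ hS2
    by_cases hsurj : Function.Surjective ((ab 2).comp ψ)
    · rw [if_pos hsurj]
      have h6 : Function.Surjective f := surj_of hFI h2 ψ hsurj
      have h7 : Function.Injective f := Finite.injective_iff_surjective.2 h6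
      let fK : K → K := fun κ => ⟨f κ.1, by
        obtain ⟨_, ⟨w, hw, rfl⟩⟩ := κ
        exact ⟨ψ w, ker_FI 2 ψ w hw, rfl⟩⟩
      have h8 : Function.Injective fK := by
        intro a b hab
        exact Subtype.ext (h7 (congrArg Subtype.val hab))
      have h9 : Function.Bijective fK := Finite.injective_iff_bijective.1 h8
      have h10 : ∑ κ : K, Fv V (ψ r) (f κ.1) = ∑ κ : K, Fv V (ψ r) κ.1 :=
        h9.sum_comp fun κ => Fv V (ψ r) κ.1
      have h11 := push V (ab 2).ker hVΦ (ψ r) 1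
      have h12 : ∑ κ : K, Fv V (ψ r) κ.1 = Lam (ab 2).ker (ψ r) := by
        unfold Lam
        rw [QuotientGroup.mk_one] at h11
        simp only [QuotientGroup.mk_one, mul_one] at h11
        exact h11
      rw [h10, h12, sub_self]
      exact dvd_zero _
    · rw [if_neg hsurj, sub_zero]
      set U2 := (V.comap ψ ⊓ (ab 2).ker).map (QuotientGroup.mk' V) with hU2
      have hUK : U2 ≤ K := Subgroup.map_mono inf_le_right
      have h5 := sum_dvd (U2.subgroupOf K) (fun κ : K => Fv V (ψ r) (f κ.1)) (by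
          intro κ ν hν
          obtain ⟨w, hw, hw2⟩ := hν
          have h6 : f ν.1 = 1 := by
            have h7 : ν.1 = (w : F2 ⧸ V) := hw2.symm
            rw [h7, ← hf1]
            exact mk_eq_one V hw.1
          show Fv V (ψ r) (f (κ.1 * ν.1)) = _
          rw [map_mul, h6, mul_one])
      rw [Nat.card_congr (Subgroup.subgroupOfEquivOfLe hUK).toEquiv, card_map_mk] at h5
      exact dvd_trans (by exact_mod_cast h3 ψ hsurj) h5

end Pool.H22.Rad
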