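import Pool.Agent.H22.Rad.Twist

/-! For every `n ≥ 2` a finite group of exponent dividing 16 in which the law `(x₁²⋯xᵢ²)⁴ = 1` holds
for `i < n` and fails for `i = n`. -/

set_option linter.unusedSectionVars false

namespace Pool.H22.Rad

open Finset

section

variable {Q : Type} [Group Q] [Fintype Q] [DecidableEq Q] (y : Q) (sec : Q → Bool)

/-- the function with values `XD`, `tau XD` at `1`, `y` -/
def ff (p : Q) : D8 := if p = 1 then XD else if p = y then tau XD else 1

theorem ff_ne {p : Q} (h1 : p ≠ 1) (h2 : p ≠ y) : ff y p = 1 := by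
  unfold ff; rw [if_neg h1, if_neg h2]

theorem ff_one : ff y 1 = XD := if_pos rfl

theorem ff_y (h : y ≠ 1) : ff y y = tau XD := by
  unfold ff; rw [if_neg h, if_pos rfl]

theorem ff_sq (p : Q) : ff y p ^ 2 = 1 := by
  unfold ff
  split_ifs
  · decide
  · decide
  · simp

theorem ff_eqv (hy : y * y = 1) (hy1 : y ≠ 1) (p : Q) : ff y (y * p) = tau (ff y p) := by
  by_cases h1 : p = 1
  · rw [h1, mul_one, ff_y y hy1, ff_one]
  · by_cases h2 : p = y
    · rw [h2, hy, ff_y y hy1, ff_one]; decide
    · rw [ff_ne y h1 h2, ff_ne y, tau_one]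
      · intro h; apply h2
        have := congrArg (y * ·) h
        simp only [← mul_assoc, hy, one_mul, mul_one] at this
        exact this
      · intro h; exact h1 (by simpa using h)

/-- key computation: an element whose fourth power is not in `MM` -/
theorem K3 (hy : y * y = 1) (hsec : ∀ p, sec (y * p) = !sec p) (hy1 : y ≠ 1) (q : Q)
    (hq : q * y ≠ y * q) (b : G1 y) (hb : b.1.q = y)
    (hbf : ∀ p, b.1.f p = ff y p * ff y (p * q)) : b ^ 4 ∉ MM y sec := by
  intro hmem
  have hbq : b.1.q * b.1.q = 1 := by rw [hb, hy]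
  have q1 : q ≠ 1 := by rintro rfl; simp at hq
  have qy : q ≠ y := by rintro rfl; simp at hq
  have yq1 : y * q ≠ 1 := by
    intro h; apply qy
    have := congrArg (y * ·) h
    simp only [← mul_assoc, hy, one_mul, mul_one] at this
    exact this
  have yqy : y * q ≠ y := by
    intro h; exact q1 (by simpa using h)
  have e1 : b.1.f 1 = XD := by
    rw [hbf, one_mul, ff_one, ff_ne y q1 qy, mul_one]
  have e2 : b.1.f y = tau XD := by
    rw [hbf, ff_y y hy1, ff_ne y yq1 yqy, mul_one]
  have key : ∀ p, (b ^ 4).1.f p = if p = 1 ∨ p = y then zD else 1 := by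
    intro p
    rw [pow4_f hbq, hb]
    by_cases h1 : p = 1
    · rw [if_pos (Or.inl h1), h1, one_mul, e1, e2]; decide
    by_cases h2 : p = y
    · rw [if_pos (Or.inr h2), h2, hy, e1, e2]; decide
    have h3 : p * y ≠ 1 := by
      intro h; apply h2
      have := congrArg (· * y) h
      simp only [mul_assoc, hy, one_mul, mul_one] at this
      exact this
    have h4 : p * y ≠ y := by
      intro h; exact h1 (by simpa using h)
    rw [if_neg (by tauto), hbf, hbf, ff_ne y h1 h2, ff_ne y h3 h4, one_mul, one_mul]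
    by_cases h5 : ff y (p * q) = 1
    · rw [h5, one_mul, ff_sq]
    · have h6 : ff y (p * y * q) = 1 := by
        by_contra h6
        have a5 : p * q = 1 ∨ p * q = y := by
          by_contra hc; rw [not_or] at hc; exact h5 (ff_ne y hc.1 hc.2)
        have a6 : p * y * q = 1 ∨ p * y * q = y := by
          by_contra hc; rw [not_or] at hc; exact h6 (ff_ne y hc.1 hc.2)
        have hyi : y⁻¹ = y := inv_eq_of_mul_eq_one_left hy
        -- `p q ∈ {1, y}`, `p y q ∈ {1, y}`
        have hcomm : y * q = q * (q⁻¹ * y * q) := by group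
        have h7 : p * y * q = (p * q) * (q⁻¹ * y * q) := by group
        have h8 : q⁻¹ * y * q = 1 ∨ q⁻¹ * y * q = y := by
          rcases a5 with a5 | a5 <;> rcases a6 with a6 | a6
          · rw [h7, a5, one_mul] at a6; exact Or.inl a6
          · rw [h7, a5, one_mul] at a6; exact Or.inr a6
          · rw [h7, a5] at a6
            right
            have := congrArg (y * ·) a6
            simp only [← mul_assoc, hy, one_mul, mul_one] at this
            simpa [mul_assoc] using this
          · rw [h7, a5] at a6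
            left
            exact (mul_eq_left.1 a6)
        rcases h8 with h8 | h8
        · apply hy1
          have : y = q * (q⁻¹ * y * q) * q⁻¹ := by group
          rw [this, h8]; simp
        · apply hq
          rw [hcomm, h8]
      rw [h6, mul_one, ff_sq]
  have h3 := hmem.2.2
  have h4 : (fun p => zz ((b ^ 4).1.f p)) = fun p => if p = 1 ∨ p = y then 1 else 0 := by
    funext p
    rw [key]
    by_cases h : p = 1 ∨ p = y
    · rw [if_pos h, if_pos h]; decide
    · rw [if_neg h, if_neg h]; decide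
  rw [h4] at h3
  unfold II at h3
  rw [Finset.sum_ite, Finset.sum_const_zero, add_zero, Finset.filter_filter] at h3
  have h5 : univ.filter (fun p => sec p = true ∧ (p = 1 ∨ p = y)) =
      {if sec 1 = true then 1 else y} := by
    ext p
    simp only [mem_filter, mem_univ, true_and, mem_singleton]
    have hs : sec y = !sec 1 := by rw [← hsec, mul_one]
    by_cases hs1 : sec 1 = true
    · rw [if_pos hs1]
      constructor
      · rintro ⟨h, rfl | rfl⟩
        · rfl
        · rw [hs, hs1] at h; simp at h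
      · rintro rfl; exact ⟨hs1, Or.inl rfl⟩
    · rw [if_neg hs1]
      constructor
      · rintro ⟨h, rfl | rfl⟩
        · exact absurd h hs1
        · rfl
      · rintro rfl
        refine ⟨?_, Or.inr rfl⟩
        rw [hs]; simpa using hs1
  rw [h5] at h3
  simp at h3

end

theorem sqp_conj {G : Type*} [Group G] (p : G) (l : List G) :
    p * sqp l * p⁻¹ = sqp (l.map fun a => p * a * p⁻¹) := by
  exact map_sqp (MulAut.conj p).toMonoidHom l

/-- the section used for `Qg n` -/
def secQ {n : ℕ} (hn : 2 ≤ n) (p : Qg n) : Bool :=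
  decide (p.f (ei (⟨0, by omega⟩, false)) = 1)

theorem ystar_f {n : ℕ} (j : Ix n) : (ystar n).f (ei j) = Multiplicative.ofAdd 1 := by
  unfold ystar bs
  simp only [ei_inj]
  rw [Finset.sum_ite_eq]
  simp

theorem secQ_y {n : ℕ} (hn : 2 ≤ n) (p : Qg n) : secQ hn (ystar n * p) = !secQ hn p := by
  unfold secQ
  rw [Wr.mul_f_of_q (a := ystar n) rfl, ystar_f]
  generalize p.f (ei (⟨0, by omega⟩, false)) = u
  revert u
  decide

theorem exists_P (n : ℕ) (hn : 2 ≤ n) : ∃ (P : Type) (_ : Group P) (_ : Finite P),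
    (∀ g : P, g ^ 16 = 1) ∧ (∀ l : List P, l.length < n → sqp l ^ 4 = 1) ∧
    (∃ l : List P, l.length = n ∧ sqp l ^ 4 ≠ 1) ∧
    (∀ (l : List P) (g : P), g * sqp l ^ 4 = sqp l ^ 4 * g) := by
  classical
  have hy : ystar n * ystar n = 1 := mul_self_of_q rfl
  have hy1 : ystar n ≠ 1 := by
    intro h
    exact ystar_width (n := n) [] (by simpa using (by omega : 0 < n)) (by rw [sqp_nil, h])
  have hsec := secQ_y hn
  have : Fintype (Qg n) := Fintype.ofFinite _
  have hN := MM_normal (y := ystar n) (sec := secQ hn) hy hsec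
  -- `q`-part of a product of squares
  have hq : ∀ l : List (G1 (ystar n)), (sqp l).1.q = sqp (l.map fun a => a.1.q) := by
    intro l
    have := map_sqp ((Wr.proj : Wr D8 (Qg n) →* Qg n).comp (G1 (ystar n)).subtype) l
    exact this
  have hqq : ∀ l : List (G1 (ystar n)), (sqp l).1.q * (sqp l).1.q = 1 := by
    intro l; rw [hq, sqp_mul_self]
  have lift : ∀ l : List (G1 (ystar n) ⧸ MM (ystar n) (secQ hn)), ∃ l' : List (G1 (ystar n)),
      l'.map (QuotientGroup.mk' (MM (ystar n) (secQ hn))) = l := by
    intro l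
    exact (List.map_surjective_iff.2 (QuotientGroup.mk'_surjective _)) l
  refine ⟨G1 (ystar n) ⧸ MM (ystar n) (secQ hn), inferInstance, inferInstance, ?_, ?_, ?_, ?_⟩
  · intro g
    obtain ⟨a, rfl⟩ := QuotientGroup.mk'_surjective _ g
    rw [← map_pow]
    have : a ^ 16 = 1 := by
      apply Subtype.ext
      have e4 : (a.1 ^ 4).q = 1 := by
        have : a.1.q ^ 4 = (a.1.q ^ 2) ^ 2 := by rw [← pow_mul]
        rw [Wr.pow_q, this, pow_two (a.1.q ^ 2)]
        exact mul_self_of_q (sq_q _)
      have e16 : a.1 ^ 16 = (a.1 ^ 4) ^ 4 := by rw [← pow_mul]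
      show a.1 ^ 16 = 1
      rw [e16]
      ext1
      · funext p
        rw [Wr.pow_f_of_q e4]
        exact (by decide : ∀ u : D8, u ^ 4 = 1) _
      · rw [Wr.pow_q, e4, one_pow]; rfl
    rw [this, map_one]
  · intro l hl
    obtain ⟨l', rfl⟩ := lift l
    rw [← map_sqp, ← map_pow]
    rw [QuotientGroup.mk'_apply, QuotientGroup.eq_one_iff]
    refine K1 hy hsec (hqq l') fun p hp => ?_
    have h1 : p * (sqp l').1.q * p⁻¹ = ystar n := by rw [hp]; group
    rw [hq, sqp_conj] at h1
    refine ystar_width _ ?_ h1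
    simpa using hl
  · have hn0 : 0 < n := by omega
    obtain ⟨m, rfl⟩ : ∃ m, n = m + 1 := ⟨n - 1, by omega⟩
    set y := ystar (m + 1) with hydef
    set q : Qg (m + 1) := qk 0 with hqdef
    have hff : ∀ p, ff y (y * p) = tau (ff y p) := ff_eqv y hy hy1
    let a0 : G1 y := ⟨⟨ff y, q⟩, hff⟩
    let e : Qg (m + 1) → G1 y := fun r => ⟨⟨fun _ => 1, r⟩, fun _ => tau_one.symm⟩
    let l' : List (G1 y) := a0 :: ((List.finRange m).map fun k => e (qk k.succ))
    refine ⟨l'.map (QuotientGroup.mk' _), by simp [l'], ?_⟩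
    rw [← map_sqp, ← map_pow]
    rw [QuotientGroup.mk'_apply, Ne, QuotientGroup.eq_one_iff]
    refine K3 y (secQ hn) hy hsec hy1 q (qk_not_comm hn 0) (sqp l') ?_ ?_
    · rw [hq]
      refine Eq.trans ?_ (sqp_qk (m + 1))
      rw [List.finRange_succ]
      congr 1
      simp [l', a0, e, hqdef, Function.comp_def]
    · intro p
      have e1 : ∀ l : List (Qg (m + 1)), (sqp (l.map e)).1 = ⟨fun _ => 1, sqp l⟩ := by
        intro l
        let E : Qg (m + 1) →* Wr D8 (Qg (m + 1)) :=
          { toFun := fun r => ⟨fun _ => 1, r⟩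
            map_one' := rfl
            map_mul' := fun r s => by ext x <;> simp }
        have h1 := map_sqp E l
        have h2 := map_sqp (G1 y).subtype (l.map e)
        rw [List.map_map] at h2
        have h3 : (G1 y).subtype ∘ e = E := rfl
        rw [h3, ← h1] at h2
        exact h2
      have e2 : (sqp l').1 = a0.1 ^ 2 * ⟨fun _ => 1, sqp ((List.finRange m).map fun k => qk k.succ)⟩ := by
        have := e1 ((List.finRange m).map fun k => qk k.succ)
        rw [List.map_map] at this
        rw [← this]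
        rfl
      rw [e2, Wr.mul_f, mul_one, pow_two, Wr.mul_f]
  · intro l g
    obtain ⟨l', rfl⟩ := lift l
    obtain ⟨b, rfl⟩ := QuotientGroup.mk'_surjective _ g
    rw [← map_sqp, ← map_pow]
    have h := K2 hy hsec (hqq l') b
    have h2 := (QuotientGroup.eq_one_iff (N := MM (ystar n) (secQ hn)) _).2 h
    have h3 : QuotientGroup.mk' (MM (ystar n) (secQ hn)) (b * sqp l' ^ 4 * b⁻¹ * (sqp l' ^ 4)⁻¹) = 1 := h2
    rw [map_mul, map_mul, map_mul, map_inv, map_inv] at h3
    have h4 := mul_inv_eq_one.1 h3
    exact (mul_inv_eq_iff_eq_mul.1 h4)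

end Pool.H22.Rad
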