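import Pool.Agent.H22.Rad.Norm

/-! The sequence of stages and the resulting data. -/

set_option linter.unusedSectionVars false

namespace Pool.H22.Rad

open Multiplicative

theorem exists_seq : ∃ V L : ℕ → Subgroup F2, ∀ m, FI (V m) ∧ V m ≤ (ab 2).ker ∧
    (V m).FiniteIndex ∧ (∀ w : F2, ∃ k : ℕ, w ^ 2 ^ k ∈ V m) ∧ gc ^ 16 ∈ V m ∧
    L m ≤ (ab 2).ker ∧ (∀ j, j ≠ m → L m ≤ V j) ∧ 2 ^ m ∣ (V m).relIndex (L m) ∧
    (∀ φ : F2 →* F2, ¬ Function.Surjective ((ab 2).comp φ) →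
        2 ^ m ∣ (V m).relIndex ((V m).comap φ ⊓ (ab 2).ker)) := by
  classical
  have hst : ∀ (m : ℕ) (W : {W : Subgroup F2 // W.Normal ∧ W.FiniteIndex}),
    ∃ V : Subgroup F2, FI V ∧ V ≤ (ab 2).ker ∧ V.FiniteIndex ∧ (∀ w : F2, ∃ k : ℕ, w ^ 2 ^ k ∈ V) ∧
      gc ^ 16 ∈ V ∧ (∀ i < m + 2, vw i ∈ V) ∧
      (∃ L : Subgroup F2, L ≤ W.1 ⊓ (ab 2).ker ∧
        (∀ V' : Subgroup F2, FI V' → vw (m + 2) ∈ V' → L ≤ V') ∧
        2 ^ m ∣ V.relIndex L) ∧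
      (∀ φ : F2 →* F2, ¬ Function.Surjective ((ab 2).comp φ) →
        2 ^ m ∣ V.relIndex (V.comap φ ⊓ (ab 2).ker)) := fun m W =>
    @stage m (m + 2) (by omega) W.1 W.2.1 W.2.2
  choose Vf h1 h2 h3 h4 h5 h6 h7 h8 using hst
  choose Lf l1 l2 l3 using h7
  let Ws : ℕ → {W : Subgroup F2 // W.Normal ∧ W.FiniteIndex} := fun m =>
    Nat.rec ⟨⊤, inferInstance, inferInstance⟩ (fun m W => ⟨W.1 ⊓ Vf m W, by
      obtain ⟨hW1, hW2⟩ := W.2
      have hn : (Vf m W).Normal := (h1 m W).normal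
      have hf : (Vf m W).FiniteIndex := h3 m W
      exact ⟨inferInstance, inferInstance⟩⟩) m
  have hs : ∀ m, (Ws (m + 1)).1 = (Ws m).1 ⊓ Vf m (Ws m) := fun m => rfl
  have hle : ∀ d j, (Ws (j + 1 + d)).1 ≤ Vf j (Ws j) := by
    intro d j
    induction d with
    | zero => rw [add_zero, hs]; exact inf_le_right
    | succ d ih => rw [← add_assoc, hs]; exact le_trans inf_le_left ih
  refine ⟨fun m => Vf m (Ws m), fun m => Lf m (Ws m), fun m => ⟨h1 _ _, h2 _ _, h3 _ _, h4 _ _,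
    h5 _ _, le_trans (l1 m (Ws m)) inf_le_right, ?_, l3 _ _, h8 _ _⟩⟩
  intro j hj
  rcases lt_or_gt_of_ne hj with h | h
  · have := hle (m - (j + 1)) j
    rw [Nat.add_sub_cancel' (by omega)] at this
    exact le_trans (le_trans (l1 m (Ws m)) inf_le_left) this
  · exact l2 m (Ws m) _ (h1 _ _) (h6 j (Ws j) (m + 2) (by omega))

/-- the data from which the relatively free group is built -/
theorem exists_data : ∃ (N0 : Subgroup F2) (u : ℕ → F2) (Λ : ℕ → F2 → ℤ) (e : (F2 →* F2) → ℤ),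
    FI N0 ∧ N0 ≤ (ab 2).ker ∧ (∀ m, u m ∈ N0) ∧
    (∀ i, ∀ v ∈ N0, ∀ w ∈ N0, Λ i (v * w) = Λ i v + Λ i w) ∧
    (∀ i m, i ≠ m → ∀ ψ : F2 →* F2, Λ i (ψ (u m)) = 0) ∧
    (∀ m (ψ : F2 →* F2), (2 ^ m : ℤ) ∣ Λ m (ψ (u m)) - e ψ) ∧ e (MonoidHom.id F2) = 16 := by
  classical
  obtain ⟨V, L, h⟩ := exists_seq
  have hN : ∀ i, (V i).Normal := fun i => (h i).1.normal
  have hu := fun m => @exists_u m (V m) (L m) (hN m) (h m).2.2.1 (h m).1 (h m).2.1 (h m).2.2.2.1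
    (h m).2.2.2.2.1 (h m).2.2.2.2.2.1 (h m).2.2.2.2.2.2.2.1 (h m).2.2.2.2.2.2.2.2
  choose u hu1 hu2 hu3 using hu
  refine ⟨⨅ i, V i, u, fun i => Lam (V i), fun ψ => if Function.Surjective ((ab 2).comp ψ) then
    Lam (ab 2).ker (ψ (gc ^ 16)) else 0, ?_, ?_, ?_, ?_, ?_, ?_, ?_⟩
  · intro φ w hw
    rw [Subgroup.mem_iInf] at hw ⊢
    exact fun i => (h i).1 φ w (hw i)
  · exact le_trans (iInf_le _ 0) (h 0).2.1
  · intro m
    rw [Subgroup.mem_iInf]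
    exact fun i => hu1 m (V i) (h i).1 (h i).2.2.2.2.1
  · intro i v hv w hw
    exact Fv_mul_of (V i) (Subgroup.mem_iInf.1 hv i) w 1
  · intro i m him ψ
    exact hu2 m (V i) (h i).1 (h i).2.2.2.2.1 ((h m).2.2.2.2.2.2.1 i him) ψ
  · intro m ψ
    have := hu3 m ψ
    convert this using 2
  · have hs : Function.Surjective ((ab 2).comp (MonoidHom.id F2)) := ab_surj 2
    beta_reduce
    rw [if_pos hs]
    exact lam_r

end Pool.H22.Rad
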