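import Pool.Agent.H22.Rad.Stage0

/-! The stage lemma: the law subgroups of `P ≀ (ℤ/N)²`. -/

set_option linter.unusedSectionVars false

namespace Pool.H22.Rad

open Multiplicative

section rho

variable {P : Type} [Group P] {N : ℕ}

/-- the coefficient function: `l[v-1]` for `1 ≤ v ≤ n` and `1` otherwise -/
def gl (l : List P) (v : ℕ) : P := if 1 ≤ v then l.getD (v - 1) 1 else 1

theorem gl_zero (l : List P) : gl l 0 = 1 := rfl

theorem gl_big (l : List P) {v : ℕ} (h : l.length < v) : gl l v = 1 := by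
  unfold gl
  rw [if_pos (by omega)]
  exact List.getD_eq_default _ _ (by omega)

theorem gl_map (l : List P) : ((List.range l.length).map fun j => gl l (j + 1)) = l := by
  apply List.ext_getElem
  · simp
  · intro i h1 h2
    simp [gl, h2]

/-- the first generator of the test homomorphism -/
def Ael (l : List P) (N : ℕ) : Wr P (Tp N) :=
  ⟨fun p => if (toAdd p).2 = 1 then (gl l (toAdd p).1.val)⁻¹ else 1, ofAdd (1, 0)⟩

/-- the second generator of the test homomorphism -/
def Bel (P : Type) [Group P] (N : ℕ) : Wr P (Tp N) := ⟨fun _ => 1, ofAdd (0, 1)⟩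

/-- the test homomorphism -/
def rho0 (l : List P) (N : ℕ) : F2 →* Wr P (Tp N) :=
  FreeGroup.lift fun b => if b then Ael l N else Bel P N

theorem rho0_x (l : List P) : rho0 l N gx = Ael l N := by simp [rho0, gx]
theorem rho0_y (l : List P) : rho0 l N gy = Bel P N := by simp [rho0, gy]

theorem rho0_c (l : List P) (p : Tp N) :
    (rho0 l N gc).f p = (Ael l N).f p * ((Ael l N).f (p * ofAdd (0, 1)))⁻¹ := by
  unfold gc
  rw [map_mul, map_mul, map_mul, map_inv, map_inv, rho0_x, rho0_y]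
  simp only [Wr.mul_f, Wr.inv_f, Wr.mul_q, Wr.inv_q]
  have h1 : ∀ q, (Bel P N).f q = 1 := fun _ => rfl
  have h2 : (Bel P N).q = ofAdd (0, 1) := rfl
  rw [h1, h1, inv_one, mul_one, mul_one, h2]
  congr 3
  rw [mul_assoc, mul_assoc, mul_comm (Ael l N).q, mul_assoc, inv_mul_cancel, mul_one]

theorem rho0_c_zero [Fact (1 < N)] (l : List P) (a : ZMod N) :
    (rho0 l N gc).f (ofAdd (a, 0)) = gl l a.val := by
  rw [rho0_c, ← ofAdd_add]
  simp [Ael]

theorem Apow_f (l : List P) (j : ℕ) {a b : ZMod N} (hb : b ≠ 1) :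
    ((Ael l N) ^ j).f (ofAdd (a, b)) = 1 := by
  induction j with
  | zero => rfl
  | succ j ih =>
    rw [pow_succ, Wr.mul_f, ih, one_mul, Wr.pow_q]
    have : (ofAdd (a, b) * (Ael l N).q ^ j : Tp N) = ofAdd (a + j, b) := by
      show (ofAdd (a, b) * (ofAdd (1, 0)) ^ j : Tp N) = _
      rw [← ofAdd_nsmul, ← ofAdd_add]
      congr 1
      ext <;> simp
    rw [this]
    simp [Ael, hb]

theorem rho0_dj (l : List P) (j : ℕ) {a b : ZMod N} (hb : b ≠ 1) :
    (rho0 l N (dj j)).f (ofAdd (a, b)) = (rho0 l N gc).f (ofAdd (a + j, b)) := by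
  unfold dj
  have hq : (rho0 l N gc).q = 1 := comm_q (Wr.proj.comp (rho0 l N))
  rw [map_mul, map_mul, map_inv, Wr.conj_f hq, map_pow, rho0_x, Apow_f l j hb, inv_one, mul_one,
    one_mul, Wr.pow_q]
  congr 1
  show (ofAdd (a, b) * (ofAdd (1, 0)) ^ j : Tp N) = _
  rw [← ofAdd_nsmul, ← ofAdd_add]
  congr 1
  ext <;> simp

theorem sqp_ones (l : List ℕ) : sqp (l.map fun _ => (1 : P)) = 1 := by
  induction l with
  | nil => rfl
  | cons a l ih => rw [List.map_cons, sqp_cons, ih]; simp

theorem sqp_filter [DecidableEq P] (l : List P) : sqp (l.filter fun a => a ≠ 1) = sqp l := by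
  induction l with
  | nil => rfl
  | cons a l ih =>
    by_cases h : a = 1
    · subst h
      rw [List.filter_cons_of_neg (by simp), ih, sqp_cons]
      simp
    · rw [List.filter_cons_of_pos (by simpa using h), sqp_cons, ih, sqp_cons]

theorem sqp_short {n : ℕ} (hP : ∀ l : List P, l.length < n → sqp l ^ 4 = 1) {l : List P}
    (hl : l.length = n) (h1 : (1 : P) ∈ l) : sqp l ^ 4 = 1 := by
  classical
  rw [← sqp_filter]
  apply hP
  rw [← hl]
  exact List.length_filter_lt_length_iff_exists.2 ⟨1, h1, by simp⟩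

/-- rows other than `0` and `1` -/
theorem h_row (l : List P) (n : ℕ) {a b : ZMod N} (hb : b ≠ 0) (hb1 : b ≠ 1) :
    (rho0 l N (vw n)).f (ofAdd (a, b)) = 1 := by
  rw [vw_f]
  have : (fun j => (rho0 l N (dj (j + 1))).f (ofAdd (a, b))) = fun _ => 1 := by
    funext j
    rw [rho0_dj l _ hb1, rho0_c, ← ofAdd_add]
    simp [Ael, hb, hb1]
  rw [this, sqp_ones, one_pow]

theorem h_zero [Fact (1 < N)] (l : List P) (n : ℕ) (a : ZMod N) :
    (rho0 l N (vw n)).f (ofAdd (a, 0)) =
      sqp ((List.range n).map fun j => gl l (a + ((j + 1 : ℕ) : ZMod N)).val) ^ 4 := by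
  rw [vw_f]
  congr 3
  funext j
  have : (0 : ZMod N) ≠ 1 := zero_ne_one
  rw [rho0_dj l _ this, rho0_c_zero]

theorem h_zero_zero [Fact (1 < N)] (l : List P) (n : ℕ) (hl : l.length = n) (hN : n < N) :
    (rho0 l N (vw n)).f (ofAdd (0, 0)) = sqp l ^ 4 := by
  rw [h_zero]
  congr 2
  conv_rhs => rw [← gl_map l]
  subst hl
  apply List.map_congr_left
  intro j hj
  have := List.mem_range.1 hj
  rw [zero_add, ZMod.val_natCast_of_lt (by omega)]

theorem h_zero_ne [Fact (1 < N)] [NeZero N] {n : ℕ}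
    (hP : ∀ l : List P, l.length < n → sqp l ^ 4 = 1)
    (l : List P) (hl : l.length = n) (hn : 1 ≤ n) (hN : n + 1 < N) {a : ZMod N} (ha : a ≠ 0) :
    (rho0 l N (vw n)).f (ofAdd (a, 0)) = 1 := by
  rw [h_zero]
  apply sqp_short hP (by simp)
  rw [List.mem_map]
  -- the value at the first place
  by_cases h1 : 1 ≤ (a + 1).val ∧ (a + 1).val ≤ n
  · have h2 : (a + 1).val ≠ 1 := by
      intro h
      apply ha
      have h3 : ((a + 1).val : ZMod N) = a + 1 := ZMod.natCast_zmod_val _
      rw [h] at h3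
      simpa using h3
    refine ⟨n + 1 - (a + 1).val, List.mem_range.2 (by omega), ?_⟩
    have h3 : ((a + 1).val : ZMod N) = a + 1 := ZMod.natCast_zmod_val _
    have h4 : a + ((n + 1 - (a + 1).val + 1 : ℕ) : ZMod N) = ((n + 1 : ℕ) : ZMod N) := by
      have h5 : ((n + 1 - (a + 1).val + 1 : ℕ) : ZMod N) + (a + 1).val = ((n + 2 : ℕ) : ZMod N) := by
        rw [← Nat.cast_add]
        congr 1
        omega
      rw [h3] at h5
      push_cast at h5 ⊢
      linear_combination h5
    rw [h4, ZMod.val_natCast_of_lt hN]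
    exact gl_big l (by omega)
  · refine ⟨0, List.mem_range.2 (by omega), ?_⟩
    rw [zero_add, Nat.cast_one]
    by_cases h2 : 1 ≤ (a + 1).val
    · exact gl_big l (by omega)
    · have : (a + 1).val = 0 := by omega
      rw [this, gl_zero]

end rho

theorem pow_mem_law {P : Type} [Group P] (h16 : ∀ g : P, g ^ 16 = 1) (N : ℕ) (w : F2) :
    w ^ (N * 16) ∈ lawSub (Wr P (Tp N)) := by
  rw [mem_lawSub]
  intro ρ
  have h1 : (ρ (w ^ N)).q = 1 := by
    rw [map_pow, Wr.pow_q]
    apply toAdd.injective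
    rw [toAdd_pow]
    ext <;> simp
  rw [pow_mul, map_pow]
  ext1
  · funext p
    rw [Wr.pow_f_of_q h1, h16]
    rfl
  · rw [Wr.pow_q, h1, one_pow]
    rfl

theorem stage (m n : ℕ) (hn : 2 ≤ n) (W : Subgroup F2) [W.Normal] [W.FiniteIndex] :
    ∃ V : Subgroup F2, FI V ∧ V ≤ (ab 2).ker ∧ V.FiniteIndex ∧ (∀ w : F2, ∃ k : ℕ, w ^ 2 ^ k ∈ V) ∧
      gc ^ 16 ∈ V ∧ (∀ i < n, vw i ∈ V) ∧
      (∃ L : Subgroup F2, L ≤ W ⊓ (ab 2).ker ∧ (∀ V' : Subgroup F2, FI V' → vw n ∈ V' → L ≤ V') ∧
        2 ^ m ∣ V.relIndex L) ∧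
      (∀ φ : F2 →* F2, ¬ Function.Surjective ((ab 2).comp φ) →
        2 ^ m ∣ V.relIndex (V.comap φ ⊓ (ab 2).ker)) := by
  classical
  obtain ⟨P, _, _, h16, hlt, ⟨l, hl, hne⟩, hcen⟩ := exists_P n hn
  -- the parameters
  set k := m + W.index + n + 4 with hk
  set M := 2 ^ k with hM
  set N := 2 ^ (k + 1) with hN
  have hkM : k < M := Nat.lt_two_pow_self
  have hNM : N = 2 * M := by rw [hN, hM, pow_succ, mul_comm]
  have hN1 : 1 < N := by omega
  have : Fact (1 < N) := ⟨hN1⟩
  have : NeZero N := ⟨by omega⟩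
  have : Fact (1 < 2) := ⟨one_lt_two⟩
  let V := lawSub (Wr P (Tp N))
  have hFI : FI V := lawSub_FI _
  have hVn : V.Normal := hFI.normal
  have hfin : V.FiniteIndex := lawSub_index _
  have h2p : ∀ w : F2, ∃ k : ℕ, w ^ 2 ^ k ∈ V := by
    intro w
    refine ⟨k + 1 + 4, ?_⟩
    have := pow_mem_law h16 N w
    rwa [hN, show (16 : ℕ) = 2 ^ 4 by norm_num, ← pow_add] at this
  obtain ⟨s, hs⟩ := two_index h2p
  -- reduction mod 2
  have h2N : 2 ∣ N := by rw [hNM]; exact dvd_mul_right _ _
  let red : Tp N →* Tp 2 := AddMonoidHom.toMultiplicative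
    (AddMonoidHom.prodMap (ZMod.castHom h2N (ZMod 2)).toAddMonoidHom
      (ZMod.castHom h2N (ZMod 2)).toAddMonoidHom)
  have hred : red.comp (ab N) = ab 2 := by
    refine f2_ext ?_ ?_
    · simp [red, ZMod.cast_one h2N]
    · simp [red, ZMod.cast_one h2N]
  -- `V` is in the kernel of `ab N`
  let ι : Tp N →* Wr P (Tp N) :=
    { toFun := fun t => ⟨fun _ => 1, t⟩
      map_one' := rfl
      map_mul' := fun s t => by ext x <;> simp }
  have hVab : ∀ w ∈ V, ab N w = 1 := by
    intro w hw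
    have h := mem_lawSub.1 hw (ι.comp (ab N))
    exact congrArg Wr.q h
  have hVΦ : V ≤ (ab 2).ker := by
    intro w hw
    rw [MonoidHom.mem_ker, ← hred, MonoidHom.comp_apply, hVab w hw, map_one]
  have hvw : ∀ (ρ : F2 →* Wr P (Tp N)) (i : ℕ) (p : Tp N), ∃ l' : List P, l'.length = i ∧
      (ρ (vw i)).f p = sqp l' ^ 4 := by
    intro ρ i p
    exact ⟨_, by simp, vw_f ρ i p⟩
  have hdvd : ∀ L : Subgroup F2, 2 ^ m ≤ V.relIndex L → 2 ^ m ∣ V.relIndex L := by
    intro L hL
    have h1 : V.relIndex L ∣ 2 ^ s := hs ▸ Subgroup.relIndex_dvd_index_of_normal V L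
    obtain ⟨t, _, ht⟩ := (Nat.dvd_prime_pow Nat.prime_two).1 h1
    rw [ht] at hL ⊢
    exact pow_dvd_pow _ ((Nat.pow_le_pow_iff_right (by norm_num)).1 hL)
  have hker : V ≤ (rho0 l N).ker := by
    intro w hw
    exact mem_lawSub.1 hw _
  -- positions of the counting lemma
  have hpos : ∀ i i' : ℕ, ((rho0 l N gx).q⁻¹ ^ i' * (rho0 l N gx).q ^ i : Tp N) =
      ofAdd ((i : ZMod N) - (i' : ZMod N), 0) := by
    intro i i'
    rw [rho0_x]
    show ((ofAdd (1, 0))⁻¹ ^ i' * (ofAdd (1, 0)) ^ i : Tp N) = _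
    rw [← ofAdd_neg, ← ofAdd_nsmul, ← ofAdd_nsmul, ← ofAdd_add]
    congr 1
    ext <;> simp
    ring
  have hsub : ∀ i < M, ∀ i' < M, ((i : ZMod N) - (i' : ZMod N) = 0) → i = i' := by
    intro i hi i' hi' h
    rw [sub_eq_zero] at h
    have := congrArg ZMod.val h
    rwa [ZMod.val_natCast_of_lt (by omega), ZMod.val_natCast_of_lt (by omega)] at this
  have hsub2 : ∀ i < M, ∀ i' < M, ((i : ZMod N) - (i' : ZMod N) + (M : ZMod N) ≠ 0) := by
    intro i hi i' hi' h
    have h1 : ((i + M : ℕ) : ZMod N) = (i' : ZMod N) := by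
      push_cast
      linear_combination h
    have := congrArg ZMod.val h1
    rw [ZMod.val_natCast_of_lt (by omega), ZMod.val_natCast_of_lt (by omega)] at this
    omega
  have hh0 : ∀ a : ZMod N, (rho0 l N (vw n)).f (ofAdd (a, 0)) = 1 ↔ a ≠ 0 := by
    intro a
    constructor
    · rintro h rfl
      rw [h_zero_zero l n hl (by omega)] at h
      exact hne h
    · intro ha
      exact h_zero_ne hlt l hl (by omega) (by omega) ha
  have hvΦ : vw n ∈ (ab 2).ker := comm_vw _ _
  refine ⟨V, hFI, hVΦ, hfin, h2p, ?_, ?_, ?_, ?_⟩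
  · refine mem_lawSub.2 fun ρ => ?_
    have hq : (ρ gc).q = 1 := comm_q (Wr.proj.comp ρ)
    rw [map_pow]
    ext1
    · funext p
      rw [Wr.pow_f_of_q hq, h16]; rfl
    · rw [Wr.pow_q, hq, one_pow]; rfl
  · intro i hi
    refine mem_lawSub.2 fun ρ => ?_
    ext1
    · funext p
      obtain ⟨l', h1, h2⟩ := hvw ρ i p
      rw [h2, hlt l' (by omega)]; rfl
    · exact vw_q ρ i
  · let Ln : Subgroup F2 := Subgroup.closure (Set.range fun i : ℕ => gx ^ i * vw n * (gx ^ i)⁻¹)
    have hLn : ∀ V' : Subgroup F2, FI V' → vw n ∈ V' → Ln ≤ V' := by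
      intro V' hV' hv
      refine (Subgroup.closure_le _).2 ?_
      rintro _ ⟨i, rfl⟩
      exact hV'.normal.conj_mem _ hv _
    have hLΦ : Ln ≤ (ab 2).ker := by
      refine (Subgroup.closure_le _).2 ?_
      rintro _ ⟨i, rfl⟩
      exact (MonoidHom.normal_ker (ab 2)).conj_mem _ hvΦ _
    refine ⟨Ln ⊓ W, ?_, fun V' hV' hv => le_trans inf_le_left (hLn V' hV' hv), ?_⟩
    · exact le_inf inf_le_right (le_trans inf_le_left hLΦ)
    · apply hdvd
      have h1 : 2 ^ M ≤ V.relIndex Ln := by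
        refine count (rho0 l N) (vw n) (vw_q _ _) M ?_ V hker Ln fun i => Subgroup.subset_closure ⟨i, rfl⟩
        intro i hi i' hi'
        rw [hpos, hh0]
        constructor
        · intro h h'; apply h; rw [h']; simp
        · intro h h'; exact h (hsub i hi i' hi' h')
      -- [L_n : V] ≤ [L_n : V ⊓ W] = [L_n : W] [L_n ⊓ W : V]
      have h2 : V.relIndex Ln ≤ W.relIndex Ln * V.relIndex (Ln ⊓ W) := by
        have e1 := Subgroup.relIndex_inf_mul_relIndex V W Ln
        have e2 : (V ⊓ W).FiniteIndex := inferInstance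
        have e3 := Subgroup.isFiniteRelIndex_of_finiteIndex (H := V ⊓ W) (K := Ln)
        have e4 : V.relIndex Ln ≤ (V ⊓ W).relIndex Ln :=
          Subgroup.relIndex_le_of_le_left inf_le_left Subgroup.relIndex_ne_zero
        rw [← e1, inf_comm, mul_comm] at e4
        exact e4
      have h3 : W.relIndex Ln ≤ W.index := by
        exact Nat.le_of_dvd (Nat.pos_of_ne_zero Subgroup.FiniteIndex.index_ne_zero)
          (Subgroup.relIndex_dvd_index_of_normal W Ln)
      have h4 : W.index < 2 ^ W.index := Nat.lt_two_pow_self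
      have h5 : 2 ^ m * 2 ^ W.index ≤ 2 ^ M := by
        rw [← pow_add]
        exact Nat.pow_le_pow_right (by norm_num) (by omega)
      by_contra hcon
      rw [not_le] at hcon
      have h6 : W.relIndex Ln * V.relIndex (Ln ⊓ W) ≤ 2 ^ W.index * V.relIndex (Ln ⊓ W) :=
        Nat.mul_le_mul_right _ (by omega)
      have h7 : 2 ^ W.index * V.relIndex (Ln ⊓ W) < 2 ^ W.index * 2 ^ m :=
        Nat.mul_lt_mul_of_pos_left hcon (by positivity)
      have h8 : 2 ^ W.index * 2 ^ m = 2 ^ m * 2 ^ W.index := mul_comm _ _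
      omega
  · intro φ hφ
    apply hdvd
    -- the induced map on `(ℤ/N)²`
    set Lm := lin (((ab N).comp φ) gx) (((ab N).comp φ) gy) with hLm
    have hLc : (ab N).comp φ = Lm.comp (ab N) := lin_comp _
    have hninj : ¬ Function.Injective Lm := by
      intro hinj
      have hsurj : Function.Surjective Lm := Finite.surjective_of_injective hinj
      apply hφ
      rw [← hred, MonoidHom.comp_assoc, hLc]
      have hrs : Function.Surjective red := by
        intro t
        obtain ⟨w, hw⟩ := ab_surj 2 t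
        exact ⟨ab N w, by rw [← MonoidHom.comp_apply, hred]; exact hw⟩
      exact hrs.comp (hsurj.comp (ab_surj N))
    obtain ⟨a, ha1, ha⟩ : ∃ a : Tp N, Lm a = 1 ∧ a ≠ 1 := by
      by_contra hcon
      push Not at hcon
      exact hninj ((injective_iff_map_eq_one Lm).2 hcon)
    -- an involution in the kernel
    obtain ⟨a0, h01, h02, h03⟩ : ∃ a0 : Tp N, Lm a0 = 1 ∧ a0 ≠ 1 ∧ a0 * a0 = 1 := by
      have hex : ∃ j, a ^ 2 ^ j = 1 := by
        refine ⟨k + 1, ?_⟩
        rw [← hN]
        apply toAdd.injective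
        rw [toAdd_pow]
        ext <;> simp
      have h1 := Nat.find_spec hex
      have h2 : Nat.find hex ≠ 0 := by
        intro h
        rw [h] at h1
        exact ha (by simpa using h1)
      refine ⟨a ^ 2 ^ (Nat.find hex - 1), ?_, ?_, ?_⟩
      · rw [map_pow, ha1, one_pow]
      · exact Nat.find_min hex (by omega)
      · rw [← pow_two, ← pow_mul, ← pow_succ, Nat.sub_add_cancel (by omega)]
        exact h1
    obtain ⟨g, hg⟩ := ab_surj N a0
    -- the coordinates of the involution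
    have hcoord : ∀ x : ZMod N, x + x = 0 → x = 0 ∨ x = (M : ZMod N) := by
      intro x hx
      have h1 : ((2 * x.val : ℕ) : ZMod N) = 0 := by
        push_cast
        rw [ZMod.natCast_zmod_val]
        linear_combination hx
      rw [ZMod.natCast_eq_zero_iff] at h1
      obtain ⟨t, ht'⟩ := h1
      have ht : x.val = M * t := by
        have : 2 * x.val = 2 * (M * t) := by
          calc 2 * x.val = N * t := ht'
            _ = 2 * M * t := congrArg (· * t) hNM
            _ = 2 * (M * t) := mul_assoc _ _ _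
        omega
      have h3 : x.val < N := ZMod.val_lt x
      have h4 : t < 2 := by
        by_contra h
        have : M * 2 ≤ M * t := Nat.mul_le_mul_left _ (by omega)
        omega
      have h5 : x = (x.val : ZMod N) := (ZMod.natCast_zmod_val x).symm
      interval_cases t
      · left; rw [h5, ht]; simp
      · right; rw [h5, ht]; simp
    have hM0 : (M : ZMod N) ≠ 0 := by
      intro h
      rw [ZMod.natCast_eq_zero_iff] at h
      have := Nat.le_of_dvd (by omega) h
      omega
    have hM1 : (M : ZMod N) ≠ 1 := by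
      intro h
      have h' : ((M : ℕ) : ZMod N) = ((1 : ℕ) : ZMod N) := by rw [h]; simp
      have := congrArg ZMod.val h'
      rw [ZMod.val_natCast_of_lt (by omega), ZMod.val_natCast_of_lt (by omega)] at this
      omega
    have hshift : ∀ i < M, ∀ i' < M,
        (rho0 l N (vw n)).f (ofAdd ((i : ZMod N) - (i' : ZMod N), 0) * a0) = 1 := by
      intro i hi i' hi'
      have e1 : (toAdd a0).1 + (toAdd a0).1 = 0 := congrArg (fun t : Tp N => (toAdd t).1) h03
      have e2 : (toAdd a0).2 + (toAdd a0).2 = 0 := congrArg (fun t : Tp N => (toAdd t).2) h03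
      have e3 : (ofAdd ((i : ZMod N) - (i' : ZMod N), (0 : ZMod N)) * a0) =
          ofAdd ((i : ZMod N) - (i' : ZMod N) + (toAdd a0).1, (toAdd a0).2) := by
        apply toAdd.injective
        rw [toAdd_mul, toAdd_ofAdd, toAdd_ofAdd]
        ext <;> simp
      rw [e3]
      rcases hcoord _ e2 with e4 | e4
      · rw [e4, hh0]
        rcases hcoord _ e1 with e5 | e5
        · exfalso
          apply h02
          apply toAdd.injective
          ext
          · exact e5
          · exact e4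
        · rw [e5]
          exact hsub2 i hi i' hi'
      · rw [e4]
        exact h_row l n hM0 hM1
    let b : F2 := g * vw n * g⁻¹ * (vw n)⁻¹
    have hbΦ : b ∈ (ab 2).ker :=
      (ab 2).ker.mul_mem ((MonoidHom.normal_ker (ab 2)).conj_mem _ hvΦ _) ((ab 2).ker.inv_mem hvΦ)
    have hbV : φ b ∈ V := by
      refine mem_lawSub.2 fun ρ => ?_
      have hσ : (ρ (φ g)).q = 1 := by
        refine ab_ker_le (N := N) (Wr.proj.comp ρ) (w := φ g) ?_
        rw [← MonoidHom.comp_apply, hLc, MonoidHom.comp_apply, hg, h01]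
      have hvq : (ρ (φ (vw n))).q = 1 := vw_q (ρ.comp φ) n
      have hconj : ρ (φ g) * ρ (φ (vw n)) * (ρ (φ g))⁻¹ = ρ (φ (vw n)) := by
        ext1
        · funext p
          rw [Wr.conj_f hvq, hσ, mul_one]
          obtain ⟨l', _, h2⟩ := hvw (ρ.comp φ) n p
          have h2' : (ρ (φ (vw n))).f p = sqp l' ^ 4 := h2
          rw [h2', hcen, mul_inv_cancel_right]
        · rw [Wr.conj_q hvq, hvq]
      show ρ (φ (g * vw n * g⁻¹ * (vw n)⁻¹)) = 1
      rw [map_mul, map_mul, map_mul, map_inv, map_inv, map_mul, map_mul, map_mul, map_inv, map_inv,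
        hconj, mul_inv_cancel]
    refine le_trans (Nat.pow_le_pow_right (by norm_num) (by omega : m ≤ M)) ?_
    refine count (rho0 l N) b ?_ M ?_ V hker _ ?_
    · show (rho0 l N (g * vw n * g⁻¹ * (vw n)⁻¹)).q = 1
      have hvq : (rho0 l N (vw n)).q = 1 := vw_q _ n
      rw [map_mul, map_mul, map_mul, map_inv, map_inv, Wr.mul_q, Wr.conj_q hvq, Wr.inv_q, hvq,
        inv_one, mul_one]
    · intro i hi i' hi'
      rw [hpos]
      have hvq : (rho0 l N (vw n)).q = 1 := vw_q _ n
      have hgq : (rho0 l N g).q = a0 := by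
        have e : Wr.proj.comp (rho0 l N) = ab N := by
          refine f2_ext ?_ ?_
          · rw [MonoidHom.comp_apply, rho0_x, ab_x]; rfl
          · rw [MonoidHom.comp_apply, rho0_y, ab_y]; rfl
        rw [← hg, ← e]
        rfl
      show (rho0 l N (g * vw n * g⁻¹ * (vw n)⁻¹)).f _ = 1 ↔ _
      rw [map_mul, map_mul, map_mul, map_inv, map_inv, Wr.mul_f_of_q (Wr.conj_q hvq),
        Wr.conj_f hvq, hgq, hshift i hi i' hi', mul_one, mul_inv_cancel, one_mul,
        Wr.inv_f_of_q hvq, inv_eq_one, hh0]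
      constructor
      · intro h h'; apply h; rw [h']; simp
      · intro h h'; exact h (hsub i hi i' hi' h')
    · intro i
      refine ⟨?_, (MonoidHom.normal_ker (ab 2)).conj_mem _ hbΦ _⟩
      show φ (gx ^ i * b * (gx ^ i)⁻¹) ∈ V
      rw [map_mul, map_mul, map_inv]
      exact hVn.conj_mem _ hbV _

end Pool.H22.Rad
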