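import Pool.Agent.H22.Rad.PGrp

/-! The free group of rank two, its abelian quotients, the words `vw n` and law subgroups. -/

set_option linter.unusedSectionVars false

namespace Pool.H22.Rad

open Multiplicative

/-- the free group of rank two -/
abbrev F2 := FreeGroup Bool

/-- first generator -/
def gx : F2 := FreeGroup.of true
/-- second generator -/
def gy : F2 := FreeGroup.of false
/-- the commutator -/
def gc : F2 := gx * gy * gx⁻¹ * gy⁻¹
/-- conjugates of the commutator -/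
def dj (j : ℕ) : F2 := gx ^ j * gc * (gx ^ j)⁻¹
/-- the words of Bryant type -/
def vw (n : ℕ) : F2 := sqp ((List.range n).map fun j => dj (j + 1)) ^ 4

/-- the group `(ℤ/N)²` -/
abbrev Tp (N : ℕ) := Multiplicative (ZMod N × ZMod N)

/-- reduction of exponents mod `N` -/
def ab (N : ℕ) : F2 →* Tp N :=
  FreeGroup.lift fun b => if b then ofAdd (1, 0) else ofAdd (0, 1)

@[simp] theorem ab_x (N : ℕ) : ab N gx = ofAdd (1, 0) := by simp [ab, gx]
@[simp] theorem ab_y (N : ℕ) : ab N gy = ofAdd (0, 1) := by simp [ab, gy]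

theorem f2_ext {G : Type*} [Group G] {φ ψ : F2 →* G} (hx : φ gx = ψ gx) (hy : φ gy = ψ gy) :
    φ = ψ :=
  FreeGroup.ext_hom _ _ (by rintro (_ | _); exacts [hy, hx])

/-- the linear self-map with given images of the basis -/
def lin {N : ℕ} (u v : Tp N) : Tp N →* Tp N :=
  AddMonoidHom.toMultiplicative
    { toFun := fun p => (p.1 * (toAdd u).1 + p.2 * (toAdd v).1, p.1 * (toAdd u).2 + p.2 * (toAdd v).2)
      map_zero' := by simp
      map_add' := fun p q => by ext <;> simp <;> ring }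

theorem lin_comp {N : ℕ} (χ : F2 →* Tp N) : χ = (lin (χ gx) (χ gy)).comp (ab N) := by
  refine f2_ext ?_ ?_
  · simp [lin]
  · simp [lin]

theorem ab_ker_le {N : ℕ} (χ : F2 →* Tp N) {w : F2} (h : ab N w = 1) : χ w = 1 := by
  rw [lin_comp χ, MonoidHom.comp_apply, h, map_one]

theorem ab_surj (N : ℕ) [NeZero N] : Function.Surjective (ab N) := by
  intro a
  refine ⟨gx ^ (toAdd a).1.val * gy ^ (toAdd a).2.val, ?_⟩
  rw [map_mul, map_pow, map_pow, ab_x, ab_y]
  apply toAdd.injective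
  rw [toAdd_mul, toAdd_pow, toAdd_pow, toAdd_ofAdd, toAdd_ofAdd]
  ext <;> simp

theorem comm_q {G : Type*} [CommGroup G] (χ : F2 →* G) : χ gc = 1 := by
  unfold gc
  rw [map_mul, map_mul, map_mul, map_inv, map_inv, mul_comm (χ gx), mul_inv_cancel_right,
    mul_inv_cancel]

theorem comm_dj {G : Type*} [CommGroup G] (χ : F2 →* G) (j : ℕ) : χ (dj j) = 1 := by
  unfold dj
  rw [map_mul, map_mul, map_inv, comm_q, mul_one, mul_inv_cancel]

theorem comm_vw {G : Type*} [CommGroup G] (χ : F2 →* G) (n : ℕ) : χ (vw n) = 1 := by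
  unfold vw
  rw [map_pow, map_sqp, List.map_map]
  have : (χ ∘ fun j => dj (j + 1)) = fun _ => 1 := by
    funext j; exact comm_dj χ _
  rw [this]
  have h : ∀ l : List ℕ, sqp (l.map fun _ => (1 : G)) = 1 := by
    intro l
    induction l with
    | nil => rfl
    | cons a l ih => rw [List.map_cons, sqp_cons, ih]; simp
  rw [h, one_pow]

theorem sqp_f {D Q : Type*} [Group D] [Group Q] (l : List (Wr D Q)) (h : ∀ a ∈ l, a.q = 1) :
    (sqp l).q = 1 ∧ ∀ p, (sqp l).f p = sqp (l.map fun a => a.f p) := by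
  induction l with
  | nil => exact ⟨rfl, fun _ => rfl⟩
  | cons a l ih =>
    obtain ⟨i1, i2⟩ := ih fun b hb => h b (by simp [hb])
    have ha : a.q = 1 := h a (by simp)
    have ha2 : (a ^ 2).q = 1 := by rw [Wr.pow_q, ha, one_pow]
    refine ⟨?_, fun p => ?_⟩
    · rw [sqp_cons, Wr.mul_q, ha2, i1, one_mul]
    · rw [sqp_cons, Wr.mul_f_of_q ha2, i2, Wr.pow_f_of_q ha, List.map_cons, sqp_cons]

theorem vw_q {D Q : Type*} [Group D] [CommGroup Q] (ρ : F2 →* Wr D Q) (n : ℕ) :
    (ρ (vw n)).q = 1 := comm_vw (Wr.proj.comp ρ) n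

theorem dj_q {D Q : Type*} [Group D] [CommGroup Q] (ρ : F2 →* Wr D Q) (n : ℕ) :
    (ρ (dj n)).q = 1 := comm_dj (Wr.proj.comp ρ) n

theorem vw_f {D Q : Type*} [Group D] [CommGroup Q] (ρ : F2 →* Wr D Q) (n : ℕ) (p : Q) :
    (ρ (vw n)).f p = sqp ((List.range n).map fun j => (ρ (dj (j + 1))).f p) ^ 4 := by
  unfold vw
  rw [map_pow, map_sqp, List.map_map]
  have h : ∀ a ∈ (List.range n).map (ρ ∘ fun j => dj (j + 1)), a.q = 1 := by
    intro a ha
    obtain ⟨j, _, rfl⟩ := List.mem_map.1 ha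
    exact dj_q ρ _
  obtain ⟨h1, h2⟩ := sqp_f _ h
  rw [Wr.pow_f_of_q h1, h2, List.map_map]
  rfl

/-! ### law subgroups -/

/-- fully invariant subgroups -/
def FI (V : Subgroup F2) : Prop := ∀ φ : F2 →* F2, ∀ w ∈ V, φ w ∈ V

/-- the values of all homomorphisms to `Γ` vanish -/
def lawSub (Γ : Type) [Group Γ] : Subgroup F2 := ⨅ ρ : F2 →* Γ, ρ.ker

theorem mem_lawSub {Γ : Type} [Group Γ] {w : F2} : w ∈ lawSub Γ ↔ ∀ ρ : F2 →* Γ, ρ w = 1 := by
  simp [lawSub, Subgroup.mem_iInf]

theorem lawSub_FI (Γ : Type) [Group Γ] : FI (lawSub Γ) := by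
  intro φ w hw
  rw [mem_lawSub] at hw ⊢
  intro ρ
  exact hw (ρ.comp φ)

theorem FI.normal {V : Subgroup F2} (h : FI V) : V.Normal :=
  ⟨fun w hw g => h (MulAut.conj g).toMonoidHom w hw⟩

theorem FI.inf {V W : Subgroup F2} (h : FI V) (h' : FI W) : FI (V ⊓ W) :=
  fun φ w hw => ⟨h φ w hw.1, h' φ w hw.2⟩

theorem lawSub_index (Γ : Type) [Group Γ] [Finite Γ] : (lawSub Γ).FiniteIndex := by
  have : Finite (F2 →* Γ) := Finite.of_equiv _ (FreeGroup.lift : (Bool → Γ) ≃ (F2 →* Γ))
  have h : ∀ ρ : F2 →* Γ, ρ.ker.FiniteIndex := fun ρ => by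
    infer_instance
  exact Subgroup.finiteIndex_iInf h

theorem two_index {V : Subgroup F2} [V.Normal] [V.FiniteIndex]
    (h : ∀ w : F2, ∃ k : ℕ, w ^ 2 ^ k ∈ V) : ∃ s, V.index = 2 ^ s := by
  have : IsPGroup 2 (F2 ⧸ V) := by
    intro g
    obtain ⟨w, rfl⟩ := QuotientGroup.mk'_surjective V g
    obtain ⟨k, hk⟩ := h w
    refine ⟨k, ?_⟩
    rw [← map_pow]
    exact (QuotientGroup.eq_one_iff _).2 hk
  have : Finite (F2 ⧸ V) := Subgroup.finite_quotient_of_finiteIndex
  obtain ⟨s, hs⟩ := (IsPGroup.iff_card (p := 2)).1 ‹IsPGroup 2 (F2 ⧸ V)›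
  exact ⟨s, hs⟩

/-! ### the counting lemma -/

theorem prod_range_single {P : Type*} [Monoid P] (g : ℕ → P) (M k : ℕ) (hk : k < M)
    (h : ∀ i < M, i ≠ k → g i = 1) : ((List.range M).map g).prod = g k := by
  induction M with
  | zero => omega
  | succ M ih =>
    rw [List.range_succ, List.map_append, List.prod_append, List.map_singleton,
      List.prod_singleton]
    by_cases hkM : k = M
    · subst hkM
      have : ((List.range k).map g).prod = 1 := by
        apply List.prod_eq_one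
        intro a ha
        obtain ⟨i, hi, rfl⟩ := List.mem_map.1 ha
        have := List.mem_range.1 hi
        exact h i (by omega) (by omega)
      rw [this, one_mul]
    · rw [h M (by omega) (by omega), mul_one]
      exact ih (by omega) fun i hi hik => h i (by omega) hik

theorem count {P Q : Type} [Group P] [Group Q] [Finite P] [Finite Q] (ρ : F2 →* Wr P Q)
    (b : F2) (hb : (ρ b).q = 1) (M : ℕ)
    (h : ∀ i < M, ∀ i' < M, (ρ b).f ((ρ gx).q⁻¹ ^ i' * (ρ gx).q ^ i) = 1 ↔ i ≠ i')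
    (V : Subgroup F2) [V.FiniteIndex] (hV : V ≤ ρ.ker) (L : Subgroup F2)
    (hL : ∀ i, gx ^ i * b * (gx ^ i)⁻¹ ∈ L) : 2 ^ M ≤ V.relIndex L := by
  classical
  have h1 : Nat.card (L.map ρ) ≤ V.relIndex L := by
    rw [← Subgroup.relIndex_ker]
    refine Subgroup.relIndex_le_of_le_left hV ?_
    have := Subgroup.isFiniteRelIndex_of_finiteIndex (H := V) (K := L)
    exact Subgroup.relIndex_ne_zero
  refine le_trans ?_ h1
  let u : ℕ → F2 := fun i => gx ^ i * b * (gx ^ i)⁻¹
  let el : (Fin M → Bool) → F2 := fun S =>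
    ((List.range M).map fun i => if hi : i < M then (if S ⟨i, hi⟩ then u i else 1) else 1).prod
  have hel : ∀ S, el S ∈ L := by
    intro S
    apply Subgroup.list_prod_mem
    intro a ha
    obtain ⟨i, hi, rfl⟩ := List.mem_map.1 ha
    split_ifs
    · exact hL i
    · exact L.one_mem
    · exact L.one_mem
  let F : (Fin M → Bool) → L.map ρ := fun S => ⟨ρ (el S), Subgroup.mem_map_of_mem _ (hel S)⟩
  have huq : ∀ i, (ρ (u i)).q = 1 := by
    intro i
    show (ρ (gx ^ i * b * (gx ^ i)⁻¹)).q = 1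
    rw [map_mul, map_mul, map_inv]
    exact Wr.conj_q hb
  have huf : ∀ i p, (ρ (u i)).f p = 1 ↔ (ρ b).f (p * (ρ gx).q ^ i) = 1 := by
    intro i p
    show (ρ (gx ^ i * b * (gx ^ i)⁻¹)).f p = 1 ↔ _
    rw [map_mul, map_mul, map_inv, Wr.conj_f hb, map_pow, Wr.pow_q, conj_eq_one_iff]
  have key : ∀ (S : Fin M → Bool) (k : Fin M),
      (ρ (el S)).f ((ρ gx).q⁻¹ ^ (k : ℕ)) = if S k then (ρ (u k)).f ((ρ gx).q⁻¹ ^ (k : ℕ)) else 1 := by
    intro S k
    show (ρ (List.prod _)).f _ = _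
    rw [map_list_prod, Wr.prod_f, List.map_map, List.map_map]
    · rw [prod_range_single _ M k k.2]
      · simp only [Function.comp]
        rw [dif_pos k.2]
        by_cases hS : S k
        · rw [if_pos hS, if_pos hS]
        · rw [if_neg hS, if_neg hS, map_one, Wr.one_f]
      · intro i hi hik
        simp only [Function.comp]
        rw [dif_pos hi]
        split_ifs
        · rw [huf]
          exact (h i hi k k.2).2 hik
        · rw [map_one, Wr.one_f]
    · intro a ha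
      obtain ⟨a', ha', rfl⟩ := List.mem_map.1 ha
      obtain ⟨i, hi, rfl⟩ := List.mem_map.1 ha'
      split_ifs
      · exact huq i
      · rw [map_one]; rfl
      · rw [map_one]; rfl
  have hne : ∀ k : Fin M, (ρ (u k)).f ((ρ gx).q⁻¹ ^ (k : ℕ)) ≠ 1 := by
    intro k hk
    rw [huf] at hk
    exact (h k k.2 k k.2).1 hk rfl
  have hinj : Function.Injective F := by
    intro S T hST
    have h2 : ρ (el S) = ρ (el T) := congrArg Subtype.val hST
    funext k
    have h3 : (ρ (el S)).f ((ρ gx).q⁻¹ ^ (k : ℕ)) = (ρ (el T)).f ((ρ gx).q⁻¹ ^ (k : ℕ)) := by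
      rw [h2]
    rw [key, key] at h3
    cases hS : S k <;> cases hT : T k <;> rw [hS, hT] at h3
    · exact absurd h3.symm (hne k)
    · exact absurd h3 (hne k)
  have : Finite (L.map ρ) := inferInstance
  have := Nat.card_le_card_of_injective F hinj
  simpa using this

end Pool.H22.Rad
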