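import Pool.Agent.H22.Rad.Width

/-! Twisted wreath products of `D₈` over a group `Q` with an involution `y`, and the quotient that
identifies the centres: a finite `2`-group in which `(x₁²⋯xᵢ²)⁴ = 1` as long as `y` is not a product
of `i` squares. -/

set_option linter.unusedSectionVars false

namespace Pool.H22.Rad

open Finset

/-- the dihedral group of order 8 -/
abbrev D8 := DihedralGroup 4

/-- the automorphism exchanging the reflections `sr 0` and `sr 1` -/
def tau : D8 → D8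
  | .r i => .r (-i)
  | .sr i => .sr (1 - i)

/-- the central involution -/
def zD : D8 := .r 2
/-- a reflection -/
def XD : D8 := .sr 0

theorem tau_mul : ∀ u v : D8, tau (u * v) = tau u * tau v := by decide
theorem tau_one : tau 1 = 1 := by decide
theorem tau_inv : ∀ u : D8, tau u⁻¹ = (tau u)⁻¹ := by decide
theorem tau_tau : ∀ u : D8, tau (tau u) = u := by decide
theorem tau_zD : tau zD = zD := by decide
theorem D8_sq_comm : ∀ u v : D8, (u * v) ^ 2 = (v * u) ^ 2 := by decide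
theorem D8_sq : ∀ u : D8, u ^ 2 = 1 ∨ u ^ 2 = zD := by decide
theorem D8_pow4 : ∀ u : D8, (u * u) ^ 2 = 1 := by decide
theorem zD_central : ∀ u : D8, u * zD * u⁻¹ = zD := by decide
theorem zD_ne : (1 : D8) ≠ zD := by decide

/-- indicator of the central involution -/
def zz (u : D8) : ZMod 2 := if u = zD then 1 else 0

theorem zz_mul {u v : D8} (hu : u = 1 ∨ u = zD) (hv : v = 1 ∨ v = zD) :
    zz (u * v) = zz u + zz v := by
  rcases hu with rfl | rfl <;> rcases hv with rfl | rfl <;> decide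

theorem zz_inv {u : D8} (hu : u = 1 ∨ u = zD) : zz u⁻¹ = zz u := by
  rcases hu with rfl | rfl <;> decide

theorem zc_mul {u v : D8} (hu : u = 1 ∨ u = zD) (hv : v = 1 ∨ v = zD) :
    u * v = 1 ∨ u * v = zD := by
  rcases hu with rfl | rfl <;> rcases hv with rfl | rfl <;> decide

theorem zc_inv {u : D8} (hu : u = 1 ∨ u = zD) : u⁻¹ = 1 ∨ u⁻¹ = zD := by
  rcases hu with rfl | rfl <;> decide

theorem zc_conj {u : D8} (hu : u = 1 ∨ u = zD) (v : D8) : v * u * v⁻¹ = u := by
  rcases hu with rfl | rfl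
  · simp
  · exact zD_central v

section

variable {Q : Type} [Group Q] [Fintype Q] [DecidableEq Q] (y : Q) (sec : Q → Bool)

/-- the equivariant elements -/
def G1 : Subgroup (Wr D8 Q) where
  carrier := {a | ∀ p, a.f (y * p) = tau (a.f p)}
  mul_mem' := by
    intro a b ha hb p
    rw [Wr.mul_f, Wr.mul_f, tau_mul, ha, mul_assoc, hb]
  one_mem' := fun p => tau_one.symm
  inv_mem' := by
    intro a ha p
    rw [Wr.inv_f, Wr.inv_f, mul_assoc, ha, tau_inv]

/-- sum over the chosen half of `Q` -/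
def II (F : Q → ZMod 2) : ZMod 2 := ∑ p ∈ univ.filter (fun p => sec p = true), F p

theorem II_add (F G : Q → ZMod 2) : II sec (fun p => F p + G p) = II sec F + II sec G :=
  Finset.sum_add_distrib

variable {y sec}

theorem II_shift (hy : y * y = 1) (hsec : ∀ p, sec (y * p) = !sec p) {F : Q → ZMod 2}
    (hF : ∀ p, F (y * p) = F p) (q : Q) : II sec (fun p => F (p * q)) = II sec F := by
  unfold II
  refine Finset.sum_nbij' (fun p => if sec (p * q) = true then p * q else y * (p * q))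
    (fun p => if sec (p * q⁻¹) = true then p * q⁻¹ else y * (p * q⁻¹)) ?_ ?_ ?_ ?_ ?_
  · intro p hp
    by_cases h : sec (p * q) = true
    · simp [h]
    · simp [h, hsec]
  · intro p hp
    by_cases h : sec (p * q⁻¹) = true
    · simp [h]
    · simp [h, hsec]
  · intro p hp
    have hp' : sec p = true := by simpa using hp
    by_cases h : sec (p * q) = true
    · simp [h, hp']
    · simp [h, ← mul_assoc, hy, hsec, hp']
  · intro p hp
    have hp' : sec p = true := by simpa using hp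
    by_cases h : sec (p * q⁻¹) = true
    · simp [h, hp']
    · simp [h, ← mul_assoc, hy, hsec, hp']
  · intro p hp
    by_cases h : sec (p * q) = true
    · simp [h]
    · simp [h, hF]

theorem II_zero (hy : y * y = 1) (hsec : ∀ p, sec (y * p) = !sec p) {F : Q → ZMod 2}
    (hF : ∀ p, F (y * p) = F p) {q : Q} (hq : q * q = 1) (hq1 : q ≠ 1)
    (hqy : ∀ p, p * q ≠ y * p) (hFq : ∀ p, F (p * q) = F p) : II sec F = 0 := by
  unfold II
  refine Finset.sum_involution
    (fun p _ => if sec (p * q) = true then p * q else y * (p * q)) ?_ ?_ ?_ ?_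
  · intro p hp
    by_cases h : sec (p * q) = true
    · simp [h, hFq, CharTwo.add_self_eq_zero]
    · simp [h, hFq, hF, CharTwo.add_self_eq_zero]
  · intro p hp _
    by_cases h : sec (p * q) = true
    · simp only [h, if_true]
      intro h2
      exact hq1 (by simpa using h2)
    · simp only [h]
      intro h2
      apply hqy p
      have h3 : y * (y * (p * q)) = y * p := congrArg (y * ·) h2
      rw [← mul_assoc, hy, one_mul] at h3
      exact h3
  · intro p hp
    by_cases h : sec (p * q) = true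
    · simp [h]
    · simp [h, hsec]
  · intro p hp
    have hp' : sec p = true := by simpa using hp
    have e : p * q * q = p := by rw [mul_assoc, hq, mul_one]
    by_cases h : sec (p * q) = true
    · simp [h, e, hp']
    · have e2 : y * (p * q) * q = y * p := by rw [mul_assoc, e]
      have e3 : y * (y * p) = p := by rw [← mul_assoc, hy, one_mul]
      simp [h, e2, hsec, hp', e3]

variable (y sec)

/-- the normal subgroup that identifies the centres -/
def MM : Subgroup (G1 y) where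
  carrier := {a | a.1.q = 1 ∧ (∀ p, a.1.f p = 1 ∨ a.1.f p = zD) ∧
    II sec (fun p => zz (a.1.f p)) = 0}
  mul_mem' := by
    rintro a b ⟨ha, ha2, ha3⟩ ⟨hb, hb2, hb3⟩
    have e : ∀ p, (a * b).1.f p = a.1.f p * b.1.f p := fun p => Wr.mul_f_of_q ha p
    refine ⟨?_, fun p => ?_, ?_⟩
    · show a.1.q * b.1.q = 1
      rw [ha, hb, mul_one]
    · rw [e]; exact zc_mul (ha2 p) (hb2 p)
    · have : (fun p => zz ((a * b).1.f p)) = fun p => zz (a.1.f p) + zz (b.1.f p) := by
        funext p; rw [e, zz_mul (ha2 p) (hb2 p)]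
      rw [this, II_add, ha3, hb3, add_zero]
  one_mem' := by
    refine ⟨rfl, fun p => Or.inl rfl, ?_⟩
    show ∑ p ∈ _, zz 1 = 0
    have : zz 1 = 0 := by decide
    simp [this]
  inv_mem' := by
    rintro a ⟨ha, ha2, ha3⟩
    have e : ∀ p, (a⁻¹).1.f p = (a.1.f p)⁻¹ := fun p => Wr.inv_f_of_q ha p
    refine ⟨?_, fun p => ?_, ?_⟩
    · show a.1.q⁻¹ = 1
      rw [ha, inv_one]
    · rw [e]; exact zc_inv (ha2 p)
    · have : (fun p => zz ((a⁻¹).1.f p)) = fun p => zz (a.1.f p) := by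
        funext p; rw [e, zz_inv (ha2 p)]
      rw [this, ha3]

theorem mem_MM {a : G1 y} : a ∈ MM y sec ↔ a.1.q = 1 ∧ (∀ p, a.1.f p = 1 ∨ a.1.f p = zD) ∧
    II sec (fun p => zz (a.1.f p)) = 0 := Iff.rfl

theorem conj_formula {a b : G1 y} (ha : b.1.q = 1) (ha2 : ∀ p, b.1.f p = 1 ∨ b.1.f p = zD)
    (p : Q) : (a * b * a⁻¹).1.f p = b.1.f (p * a.1.q) := by
  have := Wr.conj_f (a := a.1) ha p
  rw [zc_conj (ha2 _)] at this
  exact this

theorem eqv {a : G1 y} (ha2 : ∀ p, a.1.f p = 1 ∨ a.1.f p = zD) (p : Q) :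
    a.1.f (y * p) = a.1.f p := by
  rw [a.2 p]
  rcases ha2 p with h | h <;> rw [h]
  · exact tau_one
  · exact tau_zD

variable {y sec}

theorem MM_normal (hy : y * y = 1) (hsec : ∀ p, sec (y * p) = !sec p) : (MM y sec).Normal := by
  refine ⟨fun b hb a => ?_⟩
  obtain ⟨h1, h2, h3⟩ := hb
  refine ⟨Wr.conj_q h1, fun p => ?_, ?_⟩
  · rw [conj_formula y h1 h2]; exact h2 _
  · have : (fun p => zz ((a * b * a⁻¹).1.f p)) = fun p => (fun p => zz (b.1.f p)) (p * a.1.q) := by
      funext p; rw [conj_formula y h1 h2]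
    rw [this, II_shift hy hsec (F := fun p => zz (b.1.f p)) (fun p => by rw [eqv y h2]), h3]

theorem pow4_f {a : G1 y} (hq : a.1.q * a.1.q = 1) (p : Q) :
    (a ^ 4).1.f p = (a.1.f p * a.1.f (p * a.1.q)) ^ 2 := by
  have h2 : (a.1 ^ 2).q = 1 := by rw [Wr.pow_q, pow_two, hq]
  have h4 : (a ^ 4).1 = (a.1 ^ 2) ^ 2 := by
    rw [← pow_mul]; rfl
  rw [h4, Wr.pow_f_of_q h2, pow_two a.1, Wr.mul_f]

theorem pow4_q {a : G1 y} (hq : a.1.q * a.1.q = 1) : (a ^ 4).1.q = 1 := by
  show (a.1 ^ 4).q = 1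
  have : a.1.q ^ 4 = (a.1.q ^ 2) ^ 2 := by rw [← pow_mul]
  rw [Wr.pow_q, this, pow_two a.1.q, hq, one_pow]

theorem pow4_zc {a : G1 y} (hq : a.1.q * a.1.q = 1) (p : Q) :
    (a ^ 4).1.f p = 1 ∨ (a ^ 4).1.f p = zD := by
  rw [pow4_f hq]; exact D8_sq _

theorem K1 (hy : y * y = 1) (hsec : ∀ p, sec (y * p) = !sec p) {a : G1 y}
    (hq : a.1.q * a.1.q = 1) (hqy : ∀ p, p * a.1.q ≠ y * p) : a ^ 4 ∈ MM y sec := by
  refine ⟨pow4_q hq, pow4_zc hq, ?_⟩
  by_cases h1 : a.1.q = 1
  · have : (fun p => zz ((a ^ 4).1.f p)) = fun _ => 0 := by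
      funext p
      rw [pow4_f hq, h1, mul_one, D8_pow4]
      decide
    rw [this]; simp [II]
  · refine II_zero hy hsec (F := fun p => zz ((a ^ 4).1.f p)) (fun p => by rw [eqv y (pow4_zc hq)])
      hq h1 hqy fun p => ?_
    rw [pow4_f hq, pow4_f hq, mul_assoc p, hq, mul_one, D8_sq_comm]

theorem K2 (hy : y * y = 1) (hsec : ∀ p, sec (y * p) = !sec p) {a : G1 y}
    (hq : a.1.q * a.1.q = 1) (b : G1 y) : b * a ^ 4 * b⁻¹ * (a ^ 4)⁻¹ ∈ MM y sec := by
  have hc1 := pow4_q hq
  have hc2 := pow4_zc hq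
  set c := a ^ 4 with hc
  have hd : (b * c * b⁻¹).1.q = 1 := Wr.conj_q hc1
  have e : ∀ p, (b * c * b⁻¹ * c⁻¹).1.f p = c.1.f (p * b.1.q) * (c.1.f p)⁻¹ := by
    intro p
    have e1 : (b * c * b⁻¹ * c⁻¹).1.f p = (b * c * b⁻¹).1.f p * (c⁻¹).1.f p :=
      Wr.mul_f_of_q hd p
    rw [e1, conj_formula y hc1 hc2]
    congr 1
    exact Wr.inv_f_of_q hc1 p
  refine ⟨?_, fun p => ?_, ?_⟩
  · show (b * c * b⁻¹).1.q * c.1.q⁻¹ = 1
    rw [hd, hc1, inv_one, mul_one]
  · rw [e]; exact zc_mul (hc2 _) (zc_inv (hc2 _))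
  · have : (fun p => zz ((b * c * b⁻¹ * c⁻¹).1.f p)) =
        fun p => (fun p => zz (c.1.f p)) (p * b.1.q) + zz (c.1.f p) := by
      funext p; rw [e, zz_mul (hc2 _) (zc_inv (hc2 _)), zz_inv (hc2 _)]
    rw [this, II_add, II_shift hy hsec (F := fun p => zz (c.1.f p)) (fun p => by rw [eqv y hc2])]
    exact CharTwo.add_self_eq_zero _

end

end Pool.H22.Rad
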