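import Pool.Agent.H22.Rad.Wr

/-! The group `C₂ ≀ S`, `S` elementary abelian of rank `2n`: the element `ystar n` is a product of
`n` squares but not of fewer. -/

namespace Pool.H22.Rad

open Finset Module

/-- product of the squares of the members of a list -/
def sqp {G : Type*} [Monoid G] (l : List G) : G := (l.map fun g => g ^ 2).prod

@[simp] theorem sqp_nil {G : Type*} [Monoid G] : sqp ([] : List G) = 1 := rfl

theorem sqp_cons {G : Type*} [Monoid G] (a : G) (l : List G) : sqp (a :: l) = a ^ 2 * sqp l := rfl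

theorem map_sqp {G H : Type*} [Monoid G] [Monoid H] (φ : G →* H) (l : List G) :
    φ (sqp l) = sqp (l.map φ) := by
  simp [sqp, map_list_prod, Function.comp_def]

section iso

variable {ι : Type*} [Fintype ι]

/-- the dot product over `F₂` -/
def dotB (ι : Type*) [Fintype ι] : LinearMap.BilinForm (ZMod 2) (ι → ZMod 2) :=
  dotProductBilin (ZMod 2) (ZMod 2)

theorem dotB_apply (u v : ι → ZMod 2) : dotB ι u v = ∑ i, u i * v i := rfl

theorem dotB_symm (u v : ι → ZMod 2) : dotB ι u v = dotB ι v u := by
  simp only [dotB_apply, mul_comm]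

theorem dotB_refl : (dotB ι).IsRefl := fun u v h => by rw [dotB_symm]; exact h

theorem dotB_nondeg : (dotB ι).Nondegenerate := by
  classical
  refine (LinearMap.IsRefl.nondegenerate_iff_separatingLeft dotB_refl).2 ?_
  intro u hu
  funext i
  have := hu (Pi.single i 1)
  rw [dotB_apply] at this
  simpa [Pi.single_apply] using this

theorem iso_dim (T : Submodule (ZMod 2) (ι → ZMod 2))
    (h : ∀ u ∈ (dotB ι).orthogonal T, ∀ v ∈ (dotB ι).orthogonal T, dotB ι u v = 0) :
    Fintype.card ι ≤ 2 * finrank (ZMod 2) T := by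
  have h1 : (dotB ι).orthogonal T ≤ T := by
    intro v hv
    rw [← LinearMap.BilinForm.orthogonal_orthogonal dotB_nondeg dotB_refl T]
    intro u hu
    exact h u hu v hv
  have h2 := Submodule.finrank_mono h1
  rw [LinearMap.BilinForm.finrank_orthogonal dotB_nondeg, finrank_fintype_fun_eq_card] at h2
  omega

end iso

/-- index set of the coordinates -/
abbrev Ix (n : ℕ) := Fin n × Bool

/-- the top group `S` (elementary abelian of rank `2n`) -/
abbrev Sg (n : ℕ) := Multiplicative (Ix n → ZMod 2)

/-- the group `C₂ ≀ S` -/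
abbrev Qg (n : ℕ) := Wr (Multiplicative (ZMod 2)) (Sg n)

theorem Sg_mul_self {n : ℕ} (s : Sg n) : s * s = 1 := by
  apply Multiplicative.toAdd.injective
  funext i
  exact CharTwo.add_self_eq_zero _

theorem C2_mul_self (s : Multiplicative (ZMod 2)) : s * s = 1 := by
  apply Multiplicative.toAdd.injective
  exact CharTwo.add_self_eq_zero _

/-- basis elements of `S` -/
def ei {n : ℕ} (j : Ix n) : Sg n := Multiplicative.ofAdd (Pi.single j 1)

theorem ei_inj {n : ℕ} {j k : Ix n} : ei j = ei k ↔ j = k := by
  constructor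
  · intro h
    by_contra hne
    have h1 := congrArg Multiplicative.toAdd h
    have h2 : (Pi.single j (1 : ZMod 2) : Ix n → ZMod 2) j =
        (Pi.single k (1 : ZMod 2) : Ix n → ZMod 2) j := congrFun h1 j
    rw [Pi.single_eq_same, Pi.single_eq_of_ne hne] at h2
    exact one_ne_zero h2
  · rintro rfl; rfl

/-- the element of the base group given by a function -/
def bs {n : ℕ} (χ : Sg n → ZMod 2) : Qg n := ⟨fun s => Multiplicative.ofAdd (χ s), 1⟩

/-- the element `y*` -/
def ystar (n : ℕ) : Qg n := bs fun s => ∑ j : Ix n, if s = ei j then 1 else 0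

theorem sq_q {n : ℕ} (a : Qg n) : (a ^ 2).q = 1 := by
  rw [Wr.pow_q, pow_two, Sg_mul_self]

theorem sqp_q {n : ℕ} (l : List (Qg n)) : (sqp l).q = 1 := by
  apply Wr.prod_q
  intro a ha
  obtain ⟨b, _, rfl⟩ := List.mem_map.1 ha
  exact sq_q b

theorem mul_self_of_q {n : ℕ} {a : Qg n} (h : a.q = 1) : a * a = 1 := by
  ext p
  · rw [Wr.mul_f_of_q h, Wr.one_f, C2_mul_self]
  · rw [Wr.mul_q, h, mul_one, Wr.one_q]

theorem sqp_mul_self {n : ℕ} (l : List (Qg n)) : sqp l * sqp l = 1 := mul_self_of_q (sqp_q l)

/-- pairing of base elements with functions -/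
def pair {n : ℕ} (a : Qg n) (χ : Sg n → ZMod 2) : ZMod 2 :=
  ∑ s, Multiplicative.toAdd (a.f s) * χ s

theorem pair_mul {n : ℕ} {a b : Qg n} (h : a.q = 1) (χ : Sg n → ZMod 2) :
    pair (a * b) χ = pair a χ + pair b χ := by
  unfold pair
  rw [← Finset.sum_add_distrib]
  refine Finset.sum_congr rfl fun s _ => ?_
  rw [Wr.mul_f_of_q h, toAdd_mul, add_mul]

theorem pair_sq {n : ℕ} (a : Qg n) (χ : Sg n → ZMod 2) (h : ∀ s, χ (s * a.q) = χ s) :
    pair (a ^ 2) χ = 0 := by
  unfold pair
  have h1 : ∀ s, Multiplicative.toAdd ((a ^ 2).f s) * χ s =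
      Multiplicative.toAdd (a.f s) * χ s +
        Multiplicative.toAdd (a.f (s * a.q)) * χ (s * a.q) := by
    intro s
    rw [pow_two, Wr.mul_f, toAdd_mul, add_mul, h]
  have e := Equiv.sum_comp (Equiv.mulRight a.q) fun s => Multiplicative.toAdd (a.f s) * χ s
  simp only [Equiv.coe_mulRight] at e
  rw [Finset.sum_congr rfl fun s _ => h1 s, Finset.sum_add_distrib, e]
  exact CharTwo.add_self_eq_zero _

theorem pair_sqp {n : ℕ} (l : List (Qg n)) (χ : Sg n → ZMod 2)
    (h : ∀ a ∈ l, ∀ s, χ (s * a.q) = χ s) : pair (sqp l) χ = 0 := by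
  induction l with
  | nil => simp [pair]
  | cons a l ih =>
    rw [sqp_cons, pair_mul (sq_q a), pair_sq a χ (h a (by simp)),
      ih fun b hb => h b (by simp [hb]), add_zero]

theorem pair_ystar {n : ℕ} (χ : Sg n → ZMod 2) : pair (ystar n) χ = ∑ j, χ (ei j) := by
  unfold pair ystar bs
  simp only [toAdd_ofAdd, Finset.sum_mul, ite_mul, one_mul, zero_mul]
  rw [Finset.sum_comm]
  simp

/-- `y*` is not a product of fewer than `n` squares -/
theorem ystar_width {n : ℕ} (l : List (Qg n)) (hl : l.length < n) : sqp l ≠ ystar n := by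
  intro heq
  classical
  set T : Submodule (ZMod 2) (Ix n → ZMod 2) :=
    Submodule.span (ZMod 2) ((l.map fun a => Multiplicative.toAdd a.q).toFinset :
      Set (Ix n → ZMod 2)) with hT
  have h1 : finrank (ZMod 2) T ≤ l.length := by
    refine (finrank_span_finset_le_card _).trans ?_
    exact (List.toFinset_card_le _).trans (by simp)
  have h2 : Fintype.card (Ix n) ≤ 2 * finrank (ZMod 2) T := by
    refine iso_dim T fun u hu v hv => ?_
    have key := pair_sqp l (fun s => dotB _ u (Multiplicative.toAdd s) *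
      dotB _ v (Multiplicative.toAdd s)) ?_
    · rw [heq, pair_ystar] at key
      rw [← key, dotB_apply]
      refine Finset.sum_congr rfl fun j _ => ?_
      simp [ei, dotB_apply, Pi.single_apply]
    · intro a ha s
      have hmem : Multiplicative.toAdd a.q ∈ T := by
        refine Submodule.subset_span ?_
        simp only [List.coe_toFinset, List.mem_map, Set.mem_ofPred_eq]
        exact ⟨a, ha, rfl⟩
      have e1 : dotB _ u (Multiplicative.toAdd a.q) = 0 := by
        rw [dotB_symm]; exact hu _ hmem
      have e2 : dotB _ v (Multiplicative.toAdd a.q) = 0 := by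
        rw [dotB_symm]; exact hv _ hmem
      simp only [toAdd_mul, map_add, e1, e2, add_zero]
  have h3 : Fintype.card (Ix n) = n * 2 := by simp [Ix]
  omega

/-- the elements whose squares multiply up to `y*` -/
def qk {n : ℕ} (k : Fin n) : Qg n :=
  ⟨fun s => Multiplicative.ofAdd (if s = ei (k, false) then 1 else 0),
    ei (k, false) * ei (k, true)⟩

theorem qk_sq {n : ℕ} (k : Fin n) : (qk k) ^ 2 =
    bs fun s => (if s = ei (k, false) then 1 else 0) + if s = ei (k, true) then 1 else 0 := by
  ext s
  · have hiff : s * (ei (k, false) * ei (k, true)) = ei (k, false) ↔ s = ei (k, true) := by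
      constructor
      · intro h
        have h2 := congrArg (· * (ei (k, false) * ei (k, true))) h
        rw [mul_assoc, Sg_mul_self, mul_one, ← mul_assoc, Sg_mul_self, one_mul] at h2
        exact h2
      · rintro rfl
        rw [mul_comm, mul_assoc, Sg_mul_self, mul_one]
    rw [pow_two, Wr.mul_f]
    simp only [qk, bs, ← ofAdd_add, hiff]
  · rw [sq_q]; rfl

theorem bs_mul {n : ℕ} (χ χ' : Sg n → ZMod 2) : bs χ * bs χ' = bs (χ + χ') := by
  ext s
  · rw [Wr.mul_f_of_q rfl]; rfl
  · rw [Wr.mul_q]; simp [bs]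

theorem bs_list {n : ℕ} {α : Type*} (l : List α) (χ : α → Sg n → ZMod 2) :
    (l.map fun k => bs (χ k)).prod = bs fun s => (l.map fun k => χ k s).sum := by
  induction l with
  | nil => ext s <;> simp [bs]
  | cons a l ih =>
    rw [List.map_cons, List.prod_cons, ih, bs_mul]
    congr 1

theorem sqp_qk (n : ℕ) : sqp ((List.finRange n).map qk) = ystar n := by
  unfold sqp
  rw [List.map_map]
  have : (fun g : Qg n => g ^ 2) ∘ qk = fun k => bs fun s =>
      (if s = ei (k, false) then 1 else 0) + if s = ei (k, true) then 1 else 0 := by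
    funext k; exact qk_sq k
  rw [this, bs_list, ystar]
  congr 1
  funext s
  rw [Fintype.sum_prod_type, ← List.ofFn_eq_map, List.sum_ofFn]
  refine Finset.sum_congr rfl fun k _ => ?_
  rw [Fintype.sum_bool, add_comm]

theorem qk_not_comm {n : ℕ} (hn : 2 ≤ n) (k : Fin n) : qk k * ystar n ≠ ystar n * qk k := by
  intro h
  obtain ⟨l, hl⟩ : ∃ l : Fin n, l ≠ k := by
    by_cases hk : (k : ℕ) = 0
    · exact ⟨⟨1, by omega⟩, by intro h; rw [← h] at hk; simp at hk⟩
    · exact ⟨⟨0, by omega⟩, by intro h; rw [← h] at hk; simp at hk⟩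
  have h1 := congrFun (congrArg Wr.f h) (ei (l, false))
  rw [Wr.mul_f, Wr.mul_f_of_q (a := ystar n) rfl, mul_comm] at h1
  have h2 := mul_right_cancel h1
  have h3 : (ystar n).f (ei (l, false)) = Multiplicative.ofAdd 1 := by
    unfold ystar bs
    simp only [ei_inj]
    rw [Finset.sum_ite_eq]
    simp
  have h4 : (ystar n).f (ei (l, false) * (qk k).q) = Multiplicative.ofAdd 0 := by
    unfold ystar bs
    simp only
    congr 1
    refine Finset.sum_eq_zero fun j _ => ?_
    rw [if_neg]
    intro hj
    have hj' := congrArg Multiplicative.toAdd hj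
    simp only [qk, ei, toAdd_mul, toAdd_ofAdd] at hj'
    have a1 := congrFun hj' (k, false)
    have a2 := congrFun hj' (k, true)
    simp only [Pi.add_apply, Pi.single_apply, Prod.mk.injEq, hl.symm, false_and, if_false,
      and_self, if_true, and_false, zero_add, add_zero, Bool.false_eq_true,
      Bool.true_eq_false] at a1 a2
    by_cases hj1 : (k, false) = j
    · by_cases hj2 : (k, true) = j
      · rw [← hj2] at hj1; simp at hj1
      · simp [hj2] at a2
    · simp [hj1] at a1
  rw [h3, h4] at h2
  exact absurd (Multiplicative.ofAdd.injective h2) (by decide)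

end Pool.H22.Rad
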