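import Mathlib

/-! Regular wreath products, written by hand: pairs `(f, q)`, where `f p` is the label collected
by a path of type `q` that starts at the vertex `p`. -/

namespace Pool.H22.Rad

/-- the regular wreath product of `D` by `Q` -/
@[ext] structure Wr (D Q : Type*) where
  /-- the function part -/
  f : Q → D
  /-- the group part -/
  q : Q

namespace Wr

variable {D Q : Type*} [Group D] [Group Q]

instance : Mul (Wr D Q) := ⟨fun a b => ⟨fun p => a.f p * b.f (p * a.q), a.q * b.q⟩⟩
instance : One (Wr D Q) := ⟨⟨fun _ => 1, 1⟩⟩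
instance : Inv (Wr D Q) := ⟨fun a => ⟨fun p => (a.f (p * a.q⁻¹))⁻¹, a.q⁻¹⟩⟩

@[simp] theorem mul_f (a b : Wr D Q) (p : Q) : (a * b).f p = a.f p * b.f (p * a.q) := rfl
@[simp] theorem mul_q (a b : Wr D Q) : (a * b).q = a.q * b.q := rfl
@[simp] theorem one_f (p : Q) : (1 : Wr D Q).f p = 1 := rfl
@[simp] theorem one_q : (1 : Wr D Q).q = 1 := rfl
@[simp] theorem inv_f (a : Wr D Q) (p : Q) : (a⁻¹).f p = (a.f (p * a.q⁻¹))⁻¹ := rfl
@[simp] theorem inv_q (a : Wr D Q) : (a⁻¹).q = a.q⁻¹ := rfl

instance : Group (Wr D Q) :=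
  Group.ofLeftAxioms
    (by intro a b c; ext p <;> simp [mul_assoc])
    (by intro a; ext p <;> simp)
    (by intro a; ext p <;> simp)

/-- the projection to the acting group -/
def proj : Wr D Q →* Q where
  toFun a := a.q
  map_one' := rfl
  map_mul' _ _ := rfl

@[simp] theorem proj_apply (a : Wr D Q) : proj a = a.q := rfl

@[simp] theorem pow_q (a : Wr D Q) (n : ℕ) : (a ^ n).q = a.q ^ n :=
  map_pow (proj : Wr D Q →* Q) a n

/-- on elements with trivial group part everything is pointwise -/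
theorem pow_f_of_q {a : Wr D Q} (h : a.q = 1) (n : ℕ) (p : Q) : (a ^ n).f p = a.f p ^ n := by
  induction n with
  | zero => simp
  | succ n ih => rw [pow_succ, mul_f, ih, pow_q, h, one_pow, mul_one, pow_succ]

theorem mul_f_of_q {a b : Wr D Q} (h : a.q = 1) (p : Q) : (a * b).f p = a.f p * b.f p := by
  rw [mul_f, h, mul_one]

theorem inv_f_of_q {a : Wr D Q} (h : a.q = 1) (p : Q) : (a⁻¹).f p = (a.f p)⁻¹ := by
  rw [inv_f, h, inv_one, mul_one]

/-- conjugation of an element with trivial group part -/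
theorem conj_f {a b : Wr D Q} (h : b.q = 1) (p : Q) :
    (a * b * a⁻¹).f p = a.f p * b.f (p * a.q) * (a.f p)⁻¹ := by
  simp [h, mul_assoc]

theorem conj_q {a b : Wr D Q} (h : b.q = 1) : (a * b * a⁻¹).q = 1 := by
  simp [h]

theorem prod_q {l : List (Wr D Q)} (h : ∀ a ∈ l, a.q = 1) : l.prod.q = 1 := by
  induction l with
  | nil => rfl
  | cons a l ih =>
    rw [List.prod_cons, mul_q, h a (by simp), ih fun b hb => h b (by simp [hb]), mul_one]

theorem prod_f {l : List (Wr D Q)} (h : ∀ a ∈ l, a.q = 1) (p : Q) :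
    l.prod.f p = (l.map fun a => a.f p).prod := by
  induction l with
  | nil => rfl
  | cons a l ih =>
    rw [List.prod_cons, mul_f_of_q (h a (by simp)), ih fun b hb => h b (by simp [hb]),
      List.map_cons, List.prod_cons]

/-- the underlying equivalence -/
def equiv (D Q : Type*) : Wr D Q ≃ (Q → D) × Q where
  toFun a := (a.f, a.q)
  invFun x := ⟨x.1, x.2⟩
  left_inv _ := rfl
  right_inv _ := rfl

instance [Finite D] [Finite Q] : Finite (Wr D Q) := Finite.of_equiv _ (equiv D Q).symm

end Wr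

end Pool.H22.Rad
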